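import Pool.Agent.Y743.CL.Fa
import Pool.Agent.Y743.AF.Cnt

/-! # The distances to the `r`-th neighbours do not concentrate (no hypothesis on the zeros) -/

set_option autoImplicit false

open Filter Topology MeasureTheory Set

namespace Pool.Agent.V1173.UR

open SG (ord NZ)
open Pool.Agent.Y743.CL

/-- the unfolded ordinates -/
noncomputable def Yu (n : ℕ) : ℝ := ord n * Real.log (ord n) / (2 * Real.pi)

lemma Ev_iff (x : ℝ) (r n : ℕ) : Ev x r n ↔ Yu (n + r) - Yu n ≤ r + x * lm r := Iff.rfl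

/-- many zeros in `(T, 2 T]` -/
lemma many_zeros {ε : ℝ} (hε : 0 < ε) : ∀ᶠ T : ℝ in atTop,
    (1 - ε) * (T * Real.log T / (2 * Real.pi)) ≤ (NZ (2 * T) : ℝ) - NZ T := by
  obtain ⟨C, T0, hC, hT0, h⟩ := H370.nn_asymp H370.good_zeta
  have hpi3 := Real.pi_gt_three
  have hpi4 := Real.pi_lt_four
  filter_upwards [eventually_ge_atTop T0, eventually_ge_atTop 10,
    Real.tendsto_log_atTop.eventually_ge_atTop (8 * (C + 1) / ε)] with T hT hT10 hl
  have h1 := (abs_le.mp (h T (by linarith) T (2 * T) le_rfl (by linarith) (by linarith)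
    (by linarith))).1
  have hfin : (H370.zset riemannZeta T (2 * T)).Finite :=
    H370.zset_finite H370.good_zeta T (2 * T) (by linarith)
  have h3 : NZ T + H370.NN riemannZeta T (2 * T) ≤ NZ (2 * T) := by
    have h4 := SG.NZ_add_le T (2 * T) (by linarith) hfin.toFinset (by
      intro s hs
      rw [Set.Finite.mem_toFinset] at hs
      obtain ⟨s1, s2, s3, s4, s5⟩ := hs
      exact ⟨⟨s5, s1, s2, by linarith, s4⟩, s3⟩)
    have h5 : H370.NN riemannZeta T (2 * T) = ∑ s ∈ hfin.toFinset, SG.zmult s := by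
      unfold H370.NN
      rw [finsum_mem_eq_finite_toFinset_sum _ hfin]
      rfl
    rw [h5]
    exact h4
  have h3r : (NZ T : ℝ) + (H370.NN riemannZeta T (2 * T) : ℝ) ≤ NZ (2 * T) := by
    exact_mod_cast h3
  rw [div_le_iff₀ hε] at hl
  have h6 : C * T ≤ ε * (T * Real.log T / (2 * Real.pi)) := by
    rw [← mul_div_assoc, le_div_iff₀ (by positivity)]
    have a1 : T * (8 * (C + 1)) ≤ T * (Real.log T * ε) := mul_le_mul_of_nonneg_left hl (by linarith)
    have a2 : C * T * (2 * Real.pi) ≤ C * T * 8 :=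
      mul_le_mul_of_nonneg_left (by linarith) (by positivity)
    nlinarith
  linarith

/-- the number of indices in a set of a dyadic block -/
noncomputable def bc (T : ℝ) (P : ℕ → Prop) [DecidablePred P] : ℝ :=
  (((Finset.Ioc (NZ T) (NZ (2 * T))).filter P).card : ℝ)

/-- anti-concentration in the dyadic blocks -/
theorem ac_block {η : ℝ} (hη : 0 < η) (M : ℝ) : ∀ᶠ r : ℕ in atTop, ∃ T0 : ℝ, 10 ≤ T0 ∧
    ∀ T : ℝ, T0 ≤ T → ∀ z : ℝ,
      (((Finset.Ioc (NZ T) (NZ (2 * T))).filter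
        (fun n => |Yu (n + r) - Yu n - z| ≤ M)).card : ℝ) ≤ η * (T * Real.log T) := by
  classical
  have hpi := Real.pi_pos
  have hpi3 := Real.pi_gt_three
  obtain ⟨δ, hδ⟩ : ∃ δ : ℝ, δ = min (η / 16) 1 := ⟨_, rfl⟩
  have hδ0 : 0 < δ := by rw [hδ]; exact lt_min (by positivity) one_pos
  have hδη : δ ≤ η / 16 := by rw [hδ]; exact min_le_left _ _
  -- the range of the grid
  obtain ⟨K1, hK1, hg1⟩ := gs_left hδ0 0
  obtain ⟨K2, hK2, hg2⟩ := gs_right hδ0 0
  have hPh0 : ∀ x : ℝ, gs.real (Ioi x) = 1 - Ph x := gs_compl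
  obtain ⟨K3, hK3⟩ := gs_bot hδ0
  obtain ⟨K4, hK4⟩ := gs_top hδ0
  obtain ⟨J, hJ1, hJ2⟩ : ∃ J : ℕ, |K3| + |K4| + 2 ≤ J * δ ∧ 1 ≤ J := by
    obtain ⟨J, hJ⟩ := exists_nat_ge ((|K3| + |K4| + 2) / δ)
    refine ⟨J + 1, ?_, by omega⟩
    rw [div_le_iff₀ hδ0] at hJ
    push_cast
    nlinarith
  have hJ0 : (0 : ℝ) < J * δ := by
    have : (1 : ℝ) ≤ J := by exact_mod_cast hJ2
    positivity
  -- the tails
  have htl : Ph (-(J * δ) + δ) ≤ δ := by
    have e : -(J * δ) + δ ≤ -|K3| := by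
      have h1 : δ ≤ 1 := by rw [hδ]; exact min_le_right _ _
      have := abs_nonneg K4
      linarith
    have h1 := hK3 |K3| (le_abs_self _)
    exact (Ph_mono e).trans h1
  have htr : 1 - Ph (J * δ - δ) ≤ δ := by
    have e : |K4| < J * δ - δ := by
      have h1 : δ ≤ 1 := by rw [hδ]; exact min_le_right _ _
      have := abs_nonneg K3
      linarith
    rw [← hPh0]
    refine le_trans ?_ (hK4 |K4| (le_abs_self _))
    refine measureReal_mono ?_ (measure_ne_top _ _)
    intro t ht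
    exact e.le.trans (le_of_lt ht)
  -- the grid
  have hgU : ∀ j ∈ Finset.range (2 * J + 4), ∀ᶠ r : ℕ in atTop, ∀ T : ℝ, 1 ≤ T →
      r * Real.log r ≤ 2 * Real.log T →
      (((Finset.Ioc (NZ T) (NZ (2 * T))).filter
        (fun n => Ev (-(J * δ) - δ + j * δ) r n)).card : ℝ) ≤
      T * Real.log T / (2 * Real.pi) * (Ph (-(J * δ) - δ + j * δ) + δ) := fun j _ => bU _ δ hδ0
  have hgL : ∀ j ∈ Finset.range (2 * J + 4), ∀ᶠ r : ℕ in atTop, ∀ T : ℝ, 1 ≤ T →
      r * Real.log r ≤ 2 * Real.log T →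
      (((Finset.Ioc (NZ T) (NZ (2 * T))).filter
        (fun n => ¬ Ev (-(J * δ) - δ + j * δ) r n)).card : ℝ) ≤
      T * Real.log T / (2 * Real.pi) * (1 - Ph (-(J * δ) - δ + j * δ) + δ) := fun j _ => bL _ δ hδ0
  rw [← Filter.eventually_all_finset] at hgU hgL
  have hlm : ∀ᶠ r : ℕ in atTop, 2 * (|M| + 1) / δ ≤ lm r := by
    have h1 : Tendsto (fun r : ℕ => lm r) atTop atTop := by
      unfold lm
      exact (Real.tendsto_sqrt_atTop.comp log_nat).atTop_div_const hpi
    exact h1.eventually_ge_atTop _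
  filter_upwards [hgU, hgL, hlm] with r hU hL hr
  obtain ⟨T1, hT1⟩ := ((Real.tendsto_log_atTop.eventually_ge_atTop (r * Real.log r / 2)).and
    ((many_zeros hδ0).and (eventually_ge_atTop 10))).exists_forall_of_atTop
  refine ⟨max 10 T1, le_max_left _ _, fun T hT z => ?_⟩
  obtain ⟨t1, t2, t3⟩ := hT1 T ((le_max_right _ _).trans hT)
  have hrT : r * Real.log r ≤ 2 * Real.log T := by linarith
  have hT0 : 0 < T := by linarith
  have hLT : 0 < Real.log T := Real.log_pos (by linarith)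
  obtain ⟨Q, hQ⟩ : ∃ Q : ℝ, Q = T * Real.log T / (2 * Real.pi) := ⟨_, rfl⟩
  have hQ0 : 0 < Q := by rw [hQ]; positivity
  have hQT : Q ≤ T * Real.log T := by
    rw [hQ]
    apply div_le_self (by positivity)
    linarith
  rw [← hQ] at t2
  have hlm0 : 0 < lm r := lt_of_lt_of_le (by positivity) hr
  have hlmδ : 2 * M ≤ δ * lm r := by
    rw [div_le_iff₀ hδ0] at hr
    have := le_abs_self M
    linarith
  -- reduction to the normalised position
  obtain ⟨u, hu⟩ : ∃ u : ℝ, u = (z - M - r) / lm r := ⟨_, rfl⟩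
  have huz : z - M = r + u * lm r := by rw [hu]; field_simp; ring
  have hcon : ∀ n, |Yu (n + r) - Yu n - z| ≤ M →
      r + u * lm r ≤ Yu (n + r) - Yu n ∧ Yu (n + r) - Yu n ≤ r + (u + δ) * lm r := by
    intro n hn
    obtain ⟨h1, h2⟩ := abs_le.mp hn
    constructor
    · linarith
    · have : r + (u + δ) * lm r = (z - M) + δ * lm r := by rw [huz]; ring
      rw [this]
      linarith
  have hmonoE : ∀ x y : ℝ, x ≤ y → r + x * lm r ≤ r + y * lm r := fun x y h => by
    have := mul_le_mul_of_nonneg_right h hlm0.le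
    linarith
  rcases lt_or_ge u (-(J * δ)) with hc | hc
  · -- left tail
    have h0 := hU 2 (Finset.mem_range.mpr (by omega)) T (by linarith) hrT
    have e0 : -(J * δ) - δ + ((2 : ℕ) : ℝ) * δ = -(J * δ) + δ := by push_cast; ring
    rw [e0, ← hQ] at h0
    have hsub : ((Finset.Ioc (NZ T) (NZ (2 * T))).filter
        (fun n => |Yu (n + r) - Yu n - z| ≤ M)) ⊆ (Finset.Ioc (NZ T) (NZ (2 * T))).filter
        (fun n => Ev (-(J * δ) + δ) r n) := by
      intro n hn
      rw [Finset.mem_filter] at hn ⊢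
      refine ⟨hn.1, ?_⟩
      rw [Ev_iff]
      exact (hcon n hn.2).2.trans (hmonoE _ _ (by linarith))
    have h1 : (((Finset.Ioc (NZ T) (NZ (2 * T))).filter
        (fun n => |Yu (n + r) - Yu n - z| ≤ M)).card : ℝ) ≤ ((Finset.Ioc (NZ T) (NZ (2 * T))).filter
        (fun n => Ev (-(J * δ) + δ) r n)).card := by exact_mod_cast Finset.card_le_card hsub
    have h2 : Q * (Ph (-(J * δ) + δ) + δ) ≤ Q * (η / 8) :=
      mul_le_mul_of_nonneg_left (by linarith) hQ0.le
    nlinarith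
  rcases le_or_gt (J * δ) u with hc2 | hc2
  · -- right tail
    have h0 := hL (2 * J) (Finset.mem_range.mpr (by omega)) T (by linarith) hrT
    have e0 : -(J * δ) - δ + ((2 * J : ℕ) : ℝ) * δ = J * δ - δ := by push_cast; ring
    rw [e0, ← hQ] at h0
    have hsub : ((Finset.Ioc (NZ T) (NZ (2 * T))).filter
        (fun n => |Yu (n + r) - Yu n - z| ≤ M)) ⊆ (Finset.Ioc (NZ T) (NZ (2 * T))).filter
        (fun n => ¬ Ev (J * δ - δ) r n) := by
      intro n hn
      rw [Finset.mem_filter] at hn ⊢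
      refine ⟨hn.1, ?_⟩
      rw [Ev_iff, not_le]
      refine lt_of_lt_of_le ?_ (hcon n hn.2).1
      have : (J * δ - δ) * lm r < u * lm r := mul_lt_mul_of_pos_right (by linarith) hlm0
      linarith
    have h1 : (((Finset.Ioc (NZ T) (NZ (2 * T))).filter
        (fun n => |Yu (n + r) - Yu n - z| ≤ M)).card : ℝ) ≤ ((Finset.Ioc (NZ T) (NZ (2 * T))).filter
        (fun n => ¬ Ev (J * δ - δ) r n)).card := by exact_mod_cast Finset.card_le_card hsub
    have h2 : Q * (1 - Ph (J * δ - δ) + δ) ≤ Q * (η / 8) :=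
      mul_le_mul_of_nonneg_left (by linarith) hQ0.le
    nlinarith
  · -- the middle
    obtain ⟨j, hj⟩ : ∃ j : ℕ, j = ⌊(u + J * δ) / δ⌋₊ := ⟨_, rfl⟩
    have hq0 : 0 ≤ (u + J * δ) / δ := div_nonneg (by linarith) hδ0.le
    have hj1 : (j : ℝ) * δ ≤ u + J * δ := by
      have := Nat.floor_le hq0
      rw [← hj, le_div_iff₀ hδ0] at this
      exact this
    have hj2 : u + J * δ < (j + 1) * δ := by
      have := Nat.lt_floor_add_one ((u + J * δ) / δ)
      rw [← hj, div_lt_iff₀ hδ0] at this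
      exact this
    have hjJ : j < 2 * J := by
      have h1 : (j : ℝ) * δ < (2 * J) * δ := by linarith
      have h2 := lt_of_mul_lt_mul_right h1 hδ0.le
      exact_mod_cast h2
    have hA := hU (j + 3) (Finset.mem_range.mpr (by omega)) T (by linarith) hrT
    have hB := hL j (Finset.mem_range.mpr (by omega)) T (by linarith) hrT
    rw [← hQ] at hA hB
    obtain ⟨x1, hx1⟩ : ∃ x1 : ℝ, x1 = -(J * δ) - δ + j * δ := ⟨_, rfl⟩
    obtain ⟨x2, hx2⟩ : ∃ x2 : ℝ, x2 = -(J * δ) - δ + ((j + 3 : ℕ) : ℝ) * δ := ⟨_, rfl⟩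
    rw [← hx2] at hA
    rw [← hx1] at hB
    have hx12 : x2 = x1 + 3 * δ := by rw [hx1, hx2]; push_cast; ring
    have hux1 : x1 < u := by rw [hx1]; linarith
    have hux2 : u + δ ≤ x2 := by rw [hx2]; push_cast; linarith
    set I := Finset.Ioc (NZ T) (NZ (2 * T)) with hI
    have hsub : (I.filter (fun n => |Yu (n + r) - Yu n - z| ≤ M)) ⊆
        (I.filter (fun n => Ev x2 r n)) ∩ (I.filter (fun n => ¬ Ev x1 r n)) := by
      intro n hn
      rw [Finset.mem_inter, Finset.mem_filter, Finset.mem_filter]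
      rw [Finset.mem_filter] at hn
      refine ⟨⟨hn.1, ?_⟩, ⟨hn.1, ?_⟩⟩
      · rw [Ev_iff]
        exact (hcon n hn.2).2.trans (hmonoE _ _ hux2)
      · rw [Ev_iff, not_le]
        refine lt_of_lt_of_le ?_ (hcon n hn.2).1
        have : x1 * lm r < u * lm r := mul_lt_mul_of_pos_right hux1 hlm0
        linarith
    have hcov : I ⊆ (I.filter (fun n => Ev x2 r n)) ∪ (I.filter (fun n => ¬ Ev x1 r n)) := by
      intro n hn
      rw [Finset.mem_union, Finset.mem_filter, Finset.mem_filter]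
      by_cases h : Ev x1 r n
      · left
        refine ⟨hn, ?_⟩
        rw [Ev_iff] at h ⊢
        exact h.trans (hmonoE _ _ (by rw [hx12]; linarith))
      · right
        exact ⟨hn, h⟩
    have h1 := Finset.card_le_card hsub
    have h2 := Finset.card_le_card hcov
    have h3 := Finset.card_union_add_card_inter (I.filter (fun n => Ev x2 r n))
      (I.filter (fun n => ¬ Ev x1 r n))
    have h4 : ((I.filter (fun n => |Yu (n + r) - Yu n - z| ≤ M)).card : ℝ) + I.card ≤
        (I.filter (fun n => Ev x2 r n)).card + (I.filter (fun n => ¬ Ev x1 r n)).card := by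
      have : (I.filter (fun n => |Yu (n + r) - Yu n - z| ≤ M)).card + I.card ≤
        (I.filter (fun n => Ev x2 r n)).card + (I.filter (fun n => ¬ Ev x1 r n)).card := by omega
      exact_mod_cast this
    have hIc : (1 - δ) * Q ≤ I.card := by
      have : ((I.card : ℕ) : ℝ) = (NZ (2 * T) : ℝ) - NZ T := by
        rw [hI, Nat.card_Ioc, Nat.cast_sub (SG.NZ_mono (by linarith))]
      rw [this]
      exact t2
    have h5 : Ph x2 ≤ Ph x1 + (x2 - x1) := Ph_lip (by rw [hx12]; linarith)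
    have h6 : Q * (Ph x2 + δ) + Q * (1 - Ph x1 + δ) - (1 - δ) * Q ≤ Q * (6 * δ) := by
      have : Q * (Ph x2 + δ) + Q * (1 - Ph x1 + δ) - (1 - δ) * Q =
          Q * (Ph x2 - Ph x1 + 3 * δ) := by ring
      rw [this]
      exact mul_le_mul_of_nonneg_left (by rw [hx12] at h5 ⊢; linarith) hQ0.le
    have h7 : Q * (6 * δ) ≤ Q * η := mul_le_mul_of_nonneg_left (by linarith) hQ0.le
    have h8 : Q * η ≤ η * (T * Real.log T) := by
      calc Q * η = η * Q := mul_comm _ _
        _ ≤ _ := mul_le_mul_of_nonneg_left hQT hη.le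
    linarith

end Pool.Agent.V1173.UR
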