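import Pool.Agent.V1173.UR.AC

/-! # The unfolded ordinates do not follow displaced arithmetic progressions -/

set_option autoImplicit false

open Filter Topology MeasureTheory Set

namespace Pool.Agent.V1173.UR

open SG (ord NZ)
open Pool.Agent.Y743.CL
open Pool.Agent.Y743.AF (NZ_pred_le ord_ratio)

/-- the height is bounded by the index -/
lemma height_le : ∃ C : ℝ, 0 < C ∧ ∀ᶠ N : ℕ in atTop, ord N * Real.log (ord N) ≤ C * N := by
  obtain ⟨c, T1, hc, hT1, hlow⟩ := LG.GapAux.NZ_low
  refine ⟨8 / c, by positivity, ?_⟩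
  filter_upwards [SG.ord_tendsto.eventually_ge_atTop (max 16 (4 * T1)), eventually_ge_atTop 1]
    with N hN hN1
  have h16 : 16 ≤ ord N := (le_max_left _ _).trans hN
  have h4 : 4 * T1 ≤ ord N := (le_max_right _ _).trans hN
  have h1 := NZ_pred_le hN1
  have hmax : T1 ≤ (ord N - 1) / 2 := by linarith
  have h2 := hlow ((ord N - 1) / 2) hmax
  rw [show 2 * ((ord N - 1) / 2) = ord N - 1 by ring] at h2
  have h3 : Real.log (ord N) / 2 ≤ Real.log ((ord N - 1) / 2) := by
    have h5 : Real.log (ord N / 4) ≤ Real.log ((ord N - 1) / 2) :=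
      Real.log_le_log (by linarith) (by linarith)
    rw [Real.log_div (by linarith) (by norm_num)] at h5
    have h6 : 2 * Real.log 4 ≤ Real.log (ord N) := by
      have : Real.log (4 ^ 2) ≤ Real.log (ord N) := Real.log_le_log (by norm_num) (by linarith)
      rw [Real.log_pow] at this
      exact_mod_cast this
    linarith
  have hl : 0 < Real.log (ord N) := Real.log_pos (by linarith)
  have h5 : c * (ord N / 4) * (Real.log (ord N) / 2) ≤
      c * ((ord N - 1) / 2) * Real.log ((ord N - 1) / 2) :=
    mul_le_mul (mul_le_mul_of_nonneg_left (by linarith) hc.le) h3 (by positivity)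
      (mul_nonneg hc.le (by linarith))
  rw [div_mul_eq_mul_div, le_div_iff₀ hc]
  nlinarith

/-- **anti-concentration of the distances to the `r`-th neighbours** -/
theorem ac_index {η : ℝ} (hη : 0 < η) (M : ℝ) : ∀ᶠ r : ℕ in atTop, ∀ᶠ N : ℕ in atTop, ∀ z : ℝ,
    (((Finset.Icc 1 N).filter (fun n => |Yu (n + r) - Yu n - z| ≤ M)).card : ℝ) ≤ η * N := by
  classical
  obtain ⟨C, hC, hheight⟩ := height_le
  obtain ⟨J, hJ⟩ : ∃ J : ℕ, (1 / 2 : ℝ) ^ J < min (η / 4) 1 :=
    exists_pow_lt_of_lt_one (lt_min (by positivity) one_pos) (by norm_num)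
  have hJη : (1 / 2 : ℝ) ^ J < η / 4 := lt_of_lt_of_le hJ (min_le_left _ _)
  have hJ1 : (1 / 2 : ℝ) ^ J < 1 := lt_of_lt_of_le hJ (min_le_right _ _)
  filter_upwards [ac_block (show 0 < η / (4 * C) by positivity) M] with r hr
  obtain ⟨T0, hT0, hblock⟩ := hr
  filter_upwards [hheight, ord_ratio ((1 / 2) ^ J) 0 (η / 4) (by positivity) hJ1 (by positivity),
    SG.ord_tendsto.eventually_ge_atTop (T0 * 2 ^ J), eventually_ge_atTop 1] with N h1 h2 h3 h4 z
  obtain ⟨T, hT⟩ : ∃ T : ℝ, T = ord N := ⟨_, rfl⟩
  rw [← hT] at h1 h2 h3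
  have hT0' : 0 < T0 := by linarith
  have hTpos : 0 < T := lt_of_lt_of_le (by positivity) h3
  set A := (Finset.Icc 1 N).filter (fun n => |Yu (n + r) - Yu n - z| ≤ M) with hA
  -- induction over the dyadic blocks
  have key : ∀ j : ℕ, j ≤ J → ((A.filter (fun n => T / 2 ^ j < ord n)).card : ℝ) ≤
      η / (4 * C) * ((1 - (1 / 2) ^ j) * T * Real.log T) := by
    intro j
    induction j with
    | zero =>
      intro _
      have : A.filter (fun n => T / 2 ^ 0 < ord n) = ∅ := by
        rw [Finset.filter_eq_empty_iff]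
        intro n hn
        rw [hA, Finset.mem_filter, Finset.mem_Icc] at hn
        have h5 : ord n ≤ ord N := SG.ord_mono hn.1.1 hn.1.2
        rw [pow_zero, div_one, hT, not_lt]
        exact h5
      rw [this]
      simp
    | succ j ih =>
      intro hj
      have ih' := ih (by omega)
      have hTj : T0 ≤ T / 2 ^ (j + 1) := by
        rw [le_div_iff₀ (by positivity)]
        refine le_trans ?_ h3
        apply mul_le_mul_of_nonneg_left _ hT0'.le
        exact pow_le_pow_right₀ (by norm_num) hj
      have hb := hblock (T / 2 ^ (j + 1)) hTj z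
      have e1 : 2 * (T / 2 ^ (j + 1)) = T / 2 ^ j := by rw [pow_succ]; field_simp
      rw [e1] at hb
      have hsub : A.filter (fun n => T / 2 ^ (j + 1) < ord n) ⊆
          (A.filter (fun n => T / 2 ^ j < ord n)) ∪
          ((Finset.Ioc (NZ (T / 2 ^ (j + 1))) (NZ (T / 2 ^ j))).filter
            (fun n => |Yu (n + r) - Yu n - z| ≤ M)) := by
        intro n hn
        rw [Finset.mem_filter] at hn
        obtain ⟨hnA, hn2⟩ := hn
        have hnA' := hnA
        rw [hA, Finset.mem_filter, Finset.mem_Icc] at hnA'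
        by_cases hc : T / 2 ^ j < ord n
        · exact Finset.mem_union_left _ (Finset.mem_filter.mpr ⟨hnA, hc⟩)
        · push Not at hc
          refine Finset.mem_union_right _ (Finset.mem_filter.mpr ⟨Finset.mem_Ioc.mpr
            ⟨?_, (SG.ord_le_iff hnA'.1.1 _).mp hc⟩, hnA'.2⟩)
          by_contra hcon
          push Not at hcon
          have := (SG.ord_le_iff hnA'.1.1 _).mpr hcon
          linarith
      have h5 := (Finset.card_le_card hsub).trans (Finset.card_union_le _ _)
      have h6 : ((A.filter (fun n => T / 2 ^ (j + 1) < ord n)).card : ℝ) ≤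
          (A.filter (fun n => T / 2 ^ j < ord n)).card +
          ((Finset.Ioc (NZ (T / 2 ^ (j + 1))) (NZ (T / 2 ^ j))).filter
            (fun n => |Yu (n + r) - Yu n - z| ≤ M)).card := by exact_mod_cast h5
      have h7 : T / 2 ^ (j + 1) * Real.log (T / 2 ^ (j + 1)) ≤ T / 2 ^ (j + 1) * Real.log T := by
        apply mul_le_mul_of_nonneg_left _ (by positivity)
        apply Real.log_le_log (by positivity)
        apply div_le_self hTpos.le
        exact one_le_pow₀ (by norm_num)
      have h8 : η / (4 * C) * (T / 2 ^ (j + 1) * Real.log (T / 2 ^ (j + 1))) ≤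
          η / (4 * C) * (T / 2 ^ (j + 1) * Real.log T) :=
        mul_le_mul_of_nonneg_left h7 (by positivity)
      have h9 : η / (4 * C) * ((1 - (1 / 2) ^ (j + 1)) * T * Real.log T) =
          η / (4 * C) * ((1 - (1 / 2) ^ j) * T * Real.log T) +
          η / (4 * C) * (T / 2 ^ (j + 1) * Real.log T) := by
        have : (1 / 2 : ℝ) ^ j = 2 * (1 / 2) ^ (j + 1) := by rw [pow_succ]; ring
        rw [this, one_div, inv_pow]
        field_simp
        ring
      rw [h9]
      linarith
  have hkey := key J le_rfl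
  have hsplit : A ⊆ (A.filter (fun n => T / 2 ^ J < ord n)) ∪
      ((Finset.Icc 1 N).filter (fun n => ord n ≤ (1 / 2) ^ J * T + 0)) := by
    intro n hn
    by_cases hc : T / 2 ^ J < ord n
    · exact Finset.mem_union_left _ (Finset.mem_filter.mpr ⟨hn, hc⟩)
    · rw [hA, Finset.mem_filter] at hn
      refine Finset.mem_union_right _ (Finset.mem_filter.mpr ⟨hn.1, ?_⟩)
      push Not at hc
      have : (1 / 2 : ℝ) ^ J * T = T / 2 ^ J := by rw [one_div, inv_pow]; field_simp
      rw [this, add_zero]
      exact hc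
  have h5 := (Finset.card_le_card hsplit).trans (Finset.card_union_le _ _)
  have h6 : (A.card : ℝ) ≤ (A.filter (fun n => T / 2 ^ J < ord n)).card +
      ((Finset.Icc 1 N).filter (fun n => ord n ≤ (1 / 2) ^ J * T + 0)).card := by exact_mod_cast h5
  have hN0 : (1 : ℝ) ≤ N := by exact_mod_cast h4
  have hTl : 0 ≤ T * Real.log T := by
    have hT1 : 1 ≤ T := by
      refine le_trans ?_ h3
      have : (1 : ℝ) ≤ 2 ^ J := one_le_pow₀ (by norm_num)
      nlinarith
    exact mul_nonneg (by linarith) (Real.log_nonneg hT1)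
  have h7 : η / (4 * C) * ((1 - (1 / 2) ^ J) * T * Real.log T) ≤ η / 4 * N := by
    calc η / (4 * C) * ((1 - (1 / 2) ^ J) * T * Real.log T) =
        η / (4 * C) * ((1 - (1 / 2) ^ J) * (T * Real.log T)) := by ring
      _ ≤ η / (4 * C) * (1 * (C * N)) := by
          apply mul_le_mul_of_nonneg_left _ (by positivity)
          apply mul_le_mul _ h1 hTl zero_le_one
          have : 0 ≤ (1 / 2 : ℝ) ^ J := by positivity
          linarith
      _ = η / 4 * N := by field_simp
  have h8 : ((1 / 2 : ℝ) ^ J + η / 4) * N ≤ (η / 4 + η / 4) * N :=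
    mul_le_mul_of_nonneg_right (by linarith) (by linarith)
  nlinarith

/-- translates of a dense set meet -/
lemma pairs (N m R : ℕ) (χ : ℕ → ℝ) (h01 : ∀ n, χ n = 0 ∨ χ n = 1) (hN : ∀ n, N < n → χ n = 0)
    {B : ℝ} (hB : ∀ i j : ℕ, i < j → j < m →
      ∑ n ∈ Finset.Icc 1 N, χ n * χ (n + (j - i) * R) ≤ B) :
    2 * (m * ∑ n ∈ Finset.Icc 1 N, χ n - m * (m * R) - N) ≤ m * m * B ∨ m ≤ 1 := by
  classical
  by_cases hm1 : m ≤ 1
  · right; exact hm1
  left
  push Not at hm1
  have h0 : ∀ n, 0 ≤ χ n := fun n => by rcases h01 n with h | h <;> rw [h]; norm_num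
  have h1 : ∀ n, χ n ≤ 1 := fun n => by rcases h01 n with h | h <;> rw [h]; norm_num
  have hB0 : 0 ≤ B := (Finset.sum_nonneg fun n _ => mul_nonneg (h0 _) (h0 _)).trans
    (hB 0 1 (by omega) (by omega))
  set S : ℝ := ∑ n ∈ Finset.Icc 1 N, χ n with hS
  -- shifted sums
  have hshift : ∀ i : ℕ, S - i * R ≤ ∑ n ∈ Finset.Icc 1 N, χ (n + i * R) := by
    intro i
    have e1 : ∑ n ∈ Finset.Icc 1 N, χ (n + i * R) =
        ∑ n ∈ Finset.Icc (1 + i * R) (N + i * R), χ n := by
      rw [← Finset.map_add_right_Icc, Finset.sum_map]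
      rfl
    rw [e1]
    have hsub : Finset.Icc 1 N ⊆ Finset.Icc (1 + i * R) (N + i * R) ∪ Finset.Icc 1 (i * R) := by
      intro n hn
      rw [Finset.mem_Icc] at hn
      rw [Finset.mem_union, Finset.mem_Icc, Finset.mem_Icc]
      omega
    have h2 : S ≤ ∑ n ∈ Finset.Icc (1 + i * R) (N + i * R) ∪ Finset.Icc 1 (i * R), χ n :=
      Finset.sum_le_sum_of_subset_of_nonneg hsub fun n _ _ => h0 n
    have h3 : ∑ n ∈ Finset.Icc (1 + i * R) (N + i * R) ∪ Finset.Icc 1 (i * R), χ n ≤
        ∑ n ∈ Finset.Icc (1 + i * R) (N + i * R), χ n + ∑ n ∈ Finset.Icc 1 (i * R), χ n := by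
      have := Finset.sum_union_inter (s₁ := Finset.Icc (1 + i * R) (N + i * R))
        (s₂ := Finset.Icc 1 (i * R)) (f := χ)
      have h4 : 0 ≤ ∑ n ∈ Finset.Icc (1 + i * R) (N + i * R) ∩ Finset.Icc 1 (i * R), χ n :=
        Finset.sum_nonneg fun n _ => h0 n
      linarith
    have h4 : ∑ n ∈ Finset.Icc 1 (i * R), χ n ≤ i * R := by
      calc ∑ n ∈ Finset.Icc 1 (i * R), χ n ≤ ∑ _n ∈ Finset.Icc 1 (i * R), (1 : ℝ) :=
            Finset.sum_le_sum fun n _ => h1 n
        _ = i * R := by
            rw [Finset.sum_const, Nat.card_Icc, nsmul_eq_mul, mul_one, Nat.add_sub_cancel]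
            push_cast
            ring
    linarith
  -- correlations
  have hcor : ∀ i j : ℕ, i < m → j < m → i ≠ j →
      ∑ n ∈ Finset.Icc 1 N, χ (n + i * R) * χ (n + j * R) ≤ B := by
    have hlt : ∀ i j : ℕ, i < j → j < m →
        ∑ n ∈ Finset.Icc 1 N, χ (n + i * R) * χ (n + j * R) ≤ B := by
      intro i j hij hj
      refine le_trans ?_ (hB i j hij hj)
      have e1 : ∑ n ∈ Finset.Icc 1 N, χ (n + i * R) * χ (n + j * R) =
          ∑ n ∈ Finset.Icc (1 + i * R) (N + i * R), χ n * χ (n + (j - i) * R) := by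
        rw [← Finset.map_add_right_Icc, Finset.sum_map]
        refine Finset.sum_congr rfl fun n _ => ?_
        show χ (n + i * R) * χ (n + j * R) = χ (n + i * R) * χ (n + i * R + (j - i) * R)
        congr 2
        have : j * R = i * R + (j - i) * R := by
          rw [← Nat.add_mul]
          congr 1
          omega
        omega
      rw [e1]
      have e2 : ∑ n ∈ Finset.Icc (1 + i * R) (N + i * R), χ n * χ (n + (j - i) * R) =
          ∑ n ∈ (Finset.Icc (1 + i * R) (N + i * R)).filter (fun n => n ≤ N),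
            χ n * χ (n + (j - i) * R) := by
        rw [Finset.sum_filter]
        refine Finset.sum_congr rfl fun n _ => ?_
        split_ifs with h
        · rfl
        · rw [hN n (by omega), zero_mul]
      rw [e2]
      apply Finset.sum_le_sum_of_subset_of_nonneg
      · intro n hn
        rw [Finset.mem_filter, Finset.mem_Icc] at hn
        rw [Finset.mem_Icc]
        omega
      · intro n _ _
        exact mul_nonneg (h0 _) (h0 _)
    intro i j hi hj hij
    rcases lt_or_gt_of_ne hij with h | h
    · exact hlt i j h hj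
    · simp_rw [mul_comm (χ (_ + i * R))]
      exact hlt j i h hi
  -- pointwise
  have hpt : ∀ n : ℕ, 2 * ((∑ i ∈ Finset.range m, χ (n + i * R)) - 1) ≤
      ∑ i ∈ Finset.range m, ∑ j ∈ (Finset.range m).filter (fun j => j ≠ i),
        χ (n + i * R) * χ (n + j * R) := by
    intro n
    have e1 : ∀ i ∈ Finset.range m, ∑ j ∈ (Finset.range m).filter (fun j => j ≠ i),
        χ (n + i * R) * χ (n + j * R) = χ (n + i * R) * (∑ j ∈ Finset.range m, χ (n + j * R)) -
          χ (n + i * R) := by
      intro i hi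
      rw [← Finset.mul_sum]
      have e2 : ∑ j ∈ (Finset.range m).filter (fun j => j ≠ i), χ (n + j * R) =
          ∑ j ∈ Finset.range m, χ (n + j * R) - χ (n + i * R) := by
        rw [Finset.filter_ne', eq_sub_iff_add_eq, Finset.sum_erase_add _ _ hi]
      rw [e2, mul_sub]
      congr 1
      rcases h01 (n + i * R) with h | h <;> rw [h] <;> norm_num
    rw [Finset.sum_congr rfl e1, Finset.sum_sub_distrib, ← Finset.sum_mul]
    obtain ⟨k, hk⟩ : ∃ k : ℕ, ∑ i ∈ Finset.range m, χ (n + i * R) = k := by
      refine ⟨((Finset.range m).filter (fun i => χ (n + i * R) = 1)).card, ?_⟩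
      rw [Finset.card_filter]
      push_cast
      refine Finset.sum_congr rfl fun i _ => ?_
      rcases h01 (n + i * R) with h | h <;> rw [h] <;> norm_num
    rw [hk]
    have h2 : (3 : ℝ) * k ≤ k * k + 2 := by
      have : 3 * k ≤ k * k + 2 := by
        rcases Nat.lt_or_ge k 2 with h | h
        · interval_cases k <;> norm_num
        · nlinarith
      exact_mod_cast this
    linarith
  have hsum := Finset.sum_le_sum fun n (_ : n ∈ Finset.Icc 1 N) => hpt n
  have hL : ∑ n ∈ Finset.Icc 1 N, 2 * ((∑ i ∈ Finset.range m, χ (n + i * R)) - 1) =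
      2 * (∑ i ∈ Finset.range m, ∑ n ∈ Finset.Icc 1 N, χ (n + i * R) - N) := by
    rw [← Finset.mul_sum, Finset.sum_sub_distrib, Finset.sum_comm, Finset.sum_const,
      Nat.card_Icc, Nat.add_sub_cancel, nsmul_eq_mul, mul_one]
  have hR : ∑ n ∈ Finset.Icc 1 N, ∑ i ∈ Finset.range m,
      ∑ j ∈ (Finset.range m).filter (fun j => j ≠ i), χ (n + i * R) * χ (n + j * R) ≤
      m * m * B := by
    rw [Finset.sum_comm]
    have h2 : ∀ i ∈ Finset.range m, ∑ n ∈ Finset.Icc 1 N,
        ∑ j ∈ (Finset.range m).filter (fun j => j ≠ i), χ (n + i * R) * χ (n + j * R) ≤ m * B := by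
      intro i hi
      rw [Finset.sum_comm]
      calc ∑ j ∈ (Finset.range m).filter (fun j => j ≠ i), ∑ n ∈ Finset.Icc 1 N,
            χ (n + i * R) * χ (n + j * R) ≤
            ∑ _j ∈ (Finset.range m).filter (fun j => j ≠ i), B := by
            refine Finset.sum_le_sum fun j hj => ?_
            rw [Finset.mem_filter, Finset.mem_range] at hj
            exact hcor i j (Finset.mem_range.mp hi) hj.1 (Ne.symm hj.2)
        _ ≤ m * B := by
            rw [Finset.sum_const, nsmul_eq_mul]
            apply mul_le_mul_of_nonneg_right _ hB0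
            have := Finset.card_filter_le (Finset.range m) (fun j => j ≠ i)
            rw [Finset.card_range] at this
            exact_mod_cast this
    refine (Finset.sum_le_sum h2).trans ?_
    rw [Finset.sum_const, Finset.card_range, nsmul_eq_mul]
    apply le_of_eq
    ring
  have hS2 : m * S - m * (m * R) ≤ ∑ i ∈ Finset.range m, ∑ n ∈ Finset.Icc 1 N, χ (n + i * R) := by
    have h2 : ∑ i ∈ Finset.range m, (S - m * R) ≤
        ∑ i ∈ Finset.range m, ∑ n ∈ Finset.Icc 1 N, χ (n + i * R) := by
      refine Finset.sum_le_sum fun i hi => ?_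
      refine le_trans ?_ (hshift i)
      rw [Finset.mem_range] at hi
      have h3 : (i : ℝ) ≤ m := by exact_mod_cast hi.le
      have h4 : (i : ℝ) * R ≤ m * R := mul_le_mul_of_nonneg_right h3 (Nat.cast_nonneg _)
      linarith
    rw [Finset.sum_const, Finset.card_range, nsmul_eq_mul] at h2
    linarith
  rw [hL] at hsum
  linarith

/-- **the unfolded ordinates do not follow displaced arithmetic progressions** -/
theorem disp {θ : ℝ} (hθ : 0 < θ) (K : ℝ) : ∃ ε : ℝ, 0 < ε ∧ ∀ᶠ N : ℕ in atTop,
    ∀ (z : ℕ → ℝ) (b : ℝ),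
      (((Finset.Icc 1 N).filter (fun n => ε < |z (n + 1) - z n - b|)).card : ℝ) ≤ ε * N →
      (((Finset.Icc 1 N).filter (fun n => |Yu n - z n| ≤ K)).card : ℝ) < θ * N := by
  classical
  obtain ⟨m, hm⟩ := exists_nat_ge (max 2 (2 / θ))
  have hm2 : (2 : ℝ) ≤ m := (le_max_left _ _).trans hm
  have hmθ : 2 ≤ m * θ := by
    have := (le_max_right _ _).trans hm
    rwa [div_le_iff₀ hθ] at this
  have hm0 : (0 : ℝ) < m := by linarith
  have hmn : 2 ≤ m := by exact_mod_cast hm2
  obtain ⟨R, hR1, hR⟩ := ((ac_index (show (0 : ℝ) < 1 / (4 * m * m) by positivity)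
    (2 * K + 1)).and (eventually_ge_atTop 1)).exists_forall_of_atTop |>.imp
      fun R h => (⟨(h R le_rfl).2, fun r hr => (h r hr).1⟩ : 1 ≤ R ∧ ∀ r : ℕ, R ≤ r → _)
  have hR0 : (1 : ℝ) ≤ R := by exact_mod_cast hR1
  obtain ⟨ε, hε⟩ : ∃ ε : ℝ, ε = 1 / (4 * m * m * (m * R)) := ⟨_, rfl⟩
  have hε0 : 0 < ε := by rw [hε]; positivity
  have hεR : m * R * ε = 1 / (4 * m * m) := by rw [hε]; field_simp
  refine ⟨ε, hε0, ?_⟩
  have hall : ∀ s ∈ Finset.range (m * R + 1), R ≤ s → ∀ᶠ N : ℕ in atTop, ∀ z : ℝ,
      (((Finset.Icc 1 N).filter (fun n => |Yu (n + s) - Yu n - z| ≤ 2 * K + 1)).card : ℝ) ≤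
        1 / (4 * m * m) * N := fun s _ hs => hR s hs
  have hall' : ∀ s ∈ Finset.range (m * R + 1), ∀ᶠ N : ℕ in atTop, R ≤ s → ∀ z : ℝ,
      (((Finset.Icc 1 N).filter (fun n => |Yu (n + s) - Yu n - z| ≤ 2 * K + 1)).card : ℝ) ≤
        1 / (4 * m * m) * N := by
    intro s hs
    by_cases h : R ≤ s
    · filter_upwards [hall s hs h] with N hN _
      exact hN
    · exact Eventually.of_forall fun N h' => absurd h' h
  rw [← Filter.eventually_all_finset] at hall'
  filter_upwards [hall', eventually_ge_atTop (4 * (m * (m * R)) + 1)] with N hN hNb z b hexc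
  have hN1 : 1 ≤ N := by omega
  have hN0 : (1 : ℝ) ≤ N := by exact_mod_cast hN1
  by_contra hcon
  push Not at hcon
  set χ : ℕ → ℝ := fun n => if (1 ≤ n ∧ n ≤ N) ∧ |Yu n - z n| ≤ K then 1 else 0 with hχ
  have h01 : ∀ n, χ n = 0 ∨ χ n = 1 := fun n => by
    simp only [hχ]
    split_ifs
    · right; rfl
    · left; rfl
  have hNχ : ∀ n, N < n → χ n = 0 := fun n hn => by
    simp only [hχ]
    rw [if_neg]
    rintro ⟨⟨_, h⟩, _⟩
    omega
  have hS : ∑ n ∈ Finset.Icc 1 N, χ n =
      (((Finset.Icc 1 N).filter (fun n => |Yu n - z n| ≤ K)).card : ℝ) := by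
    rw [Finset.card_filter]
    push_cast
    refine Finset.sum_congr rfl fun n hn => ?_
    rw [Finset.mem_Icc] at hn
    simp only [hχ, hn, and_self, true_and]
  have hB : ∀ i j : ℕ, i < j → j < m → ∑ n ∈ Finset.Icc 1 N, χ n * χ (n + (j - i) * R) ≤
      1 / (2 * m * m) * N := by
    intro i j hij hj
    obtain ⟨s, hs⟩ : ∃ s : ℕ, s = (j - i) * R := ⟨_, rfl⟩
    rw [← hs]
    have hRs : R ≤ s := by
      rw [hs]
      exact Nat.le_mul_of_pos_left R (by omega)
    have hsm : s ≤ m * R := by
      rw [hs]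
      exact Nat.mul_le_mul_right R (by omega)
    have hsr : (s : ℝ) ≤ m * R := by exact_mod_cast hsm
    have hac := hN s (Finset.mem_range.mpr (by omega)) hRs (s * b)
    set E := (Finset.Icc 1 N).filter (fun n => ε < |z (n + 1) - z n - b|) with hE
    set Q := (Finset.Icc 1 N).filter (fun n => |Yu (n + s) - Yu n - s * b| ≤ 2 * K + 1) with hQ
    have hpt : ∀ n ∈ Finset.Icc 1 N, χ n * χ (n + s) ≤
        (if n ∈ Q then (1 : ℝ) else 0) + ∑ t ∈ Finset.range s, (if n + t ∈ E then (1 : ℝ) else 0) := by
      intro n hn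
      have hsum0 : 0 ≤ ∑ t ∈ Finset.range s, (if n + t ∈ E then (1 : ℝ) else 0) :=
        Finset.sum_nonneg fun t _ => by split_ifs <;> norm_num
      have hq0 : (0 : ℝ) ≤ (if n ∈ Q then (1 : ℝ) else 0) := by split_ifs <;> norm_num
      by_cases hg : ((1 ≤ n ∧ n ≤ N) ∧ |Yu n - z n| ≤ K) ∧
          ((1 ≤ n + s ∧ n + s ≤ N) ∧ |Yu (n + s) - z (n + s)| ≤ K)
      · have e1 : χ n * χ (n + s) = 1 := by
          simp only [hχ]
          rw [if_pos hg.1, if_pos hg.2, one_mul]
        rw [e1]
        by_cases hex : ∃ t ∈ Finset.range s, n + t ∈ E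
        · obtain ⟨t, ht, hte⟩ := hex
          have : (1 : ℝ) ≤ ∑ t ∈ Finset.range s, (if n + t ∈ E then (1 : ℝ) else 0) := by
            have h2 := Finset.single_le_sum
              (f := fun t => if n + t ∈ E then (1 : ℝ) else 0)
              (fun t _ => by split_ifs <;> norm_num) ht
            simp only [hte, if_true] at h2
            exact h2
          linarith
        · push Not at hex
          have hz : ∀ t : ℕ, t ≤ s → |z (n + t) - z n - t * b| ≤ t * ε := by
            intro t
            induction t with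
            | zero => intro _; simp
            | succ t ih =>
              intro ht
              have h2 := ih (by omega)
              have h3 := hex t (Finset.mem_range.mpr (by omega))
              have h4 : |z (n + t + 1) - z (n + t) - b| ≤ ε := by
                by_contra h5
                push Not at h5
                apply h3
                rw [hE, Finset.mem_filter, Finset.mem_Icc]
                exact ⟨⟨by omega, by omega⟩, h5⟩
              have e2 : z (n + (t + 1)) - z n - ((t + 1 : ℕ) : ℝ) * b =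
                  (z (n + t) - z n - t * b) + (z (n + t + 1) - z (n + t) - b) := by
                rw [show n + (t + 1) = n + t + 1 by ring]
                push_cast
                ring
              rw [e2]
              refine (abs_add_le _ _).trans ?_
              push_cast
              linarith
          have hzs := hz s le_rfl
          have hsε : s * ε ≤ 1 := by
            calc s * ε ≤ m * R * ε := mul_le_mul_of_nonneg_right hsr hε0.le
              _ = 1 / (4 * m * m) := hεR
              _ ≤ 1 := by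
                rw [div_le_one (by positivity)]
                nlinarith
          have hnQ : n ∈ Q := by
            rw [hQ, Finset.mem_filter]
            refine ⟨hn, ?_⟩
            obtain ⟨a1, a2⟩ := abs_le.mp hg.1.2
            obtain ⟨a3, a4⟩ := abs_le.mp hg.2.2
            obtain ⟨a5, a6⟩ := abs_le.mp hzs
            rw [abs_le]
            constructor <;> linarith
          rw [if_pos hnQ]
          linarith
      · have e1 : χ n * χ (n + s) = 0 := by
          rw [not_and_or] at hg
          rcases hg with h | h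
          · have : χ n = 0 := by simp only [hχ]; rw [if_neg h]
            rw [this, zero_mul]
          · have : χ (n + s) = 0 := by simp only [hχ]; rw [if_neg h]
            rw [this, mul_zero]
        rw [e1]
        linarith
    refine (Finset.sum_le_sum hpt).trans ?_
    rw [Finset.sum_add_distrib]
    have g1 : ∑ n ∈ Finset.Icc 1 N, (if n ∈ Q then (1 : ℝ) else 0) ≤ 1 / (4 * m * m) * N := by
      refine le_trans (le_of_eq ?_) hac
      rw [Finset.sum_boole]
      congr 2
      rw [hQ]
      ext n
      rw [Finset.mem_filter, Finset.mem_filter]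
      exact ⟨fun h => h.2, fun h => ⟨h.1, h⟩⟩
    have g2 : ∑ n ∈ Finset.Icc 1 N, ∑ t ∈ Finset.range s, (if n + t ∈ E then (1 : ℝ) else 0) ≤
        1 / (4 * m * m) * N := by
      rw [Finset.sum_comm]
      have g3 : ∀ t ∈ Finset.range s, ∑ n ∈ Finset.Icc 1 N, (if n + t ∈ E then (1 : ℝ) else 0) ≤
          ε * N := by
        intro t _
        refine le_trans ?_ hexc
        rw [Finset.sum_boole]
        have : (((Finset.Icc 1 N).filter fun n => n + t ∈ E).map (addRightEmbedding t)).card ≤
            E.card := by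
          apply Finset.card_le_card
          intro y hy
          rw [Finset.mem_map] at hy
          obtain ⟨x, hx, rfl⟩ := hy
          rw [Finset.mem_filter] at hx
          exact hx.2
        rw [Finset.card_map] at this
        exact_mod_cast this
      refine (Finset.sum_le_sum g3).trans ?_
      rw [Finset.sum_const, Finset.card_range, nsmul_eq_mul]
      calc (s : ℝ) * (ε * N) ≤ (m * R) * (ε * N) :=
            mul_le_mul_of_nonneg_right hsr (by positivity)
        _ = (m * R * ε) * N := by ring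
        _ = _ := by rw [hεR]
    have g4 : 1 / (2 * m * m) * (N : ℝ) = 1 / (4 * m * m) * N + 1 / (4 * m * m) * N := by
      field_simp
      ring
    rw [g4]
    linarith
  rcases pairs N m R χ h01 hNχ hB with h | h
  · rw [hS] at h
    have g1 : (m : ℝ) * m * (1 / (2 * m * m) * N) = N / 2 := by field_simp
    rw [g1] at h
    have g2 : m * (θ * N) ≤ m * (((Finset.Icc 1 N).filter (fun n => |Yu n - z n| ≤ K)).card : ℝ) :=
      mul_le_mul_of_nonneg_left hcon hm0.le
    have g3 : 2 * (N : ℝ) ≤ m * (θ * N) := by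
      calc 2 * (N : ℝ) ≤ (m * θ) * N := mul_le_mul_of_nonneg_right hmθ (by linarith)
        _ = _ := by ring
    have g4 : 4 * ((m : ℝ) * (m * R)) ≤ N := by
      have : ((4 * (m * (m * R)) + 1 : ℕ) : ℝ) ≤ N := by exact_mod_cast hNb
      push_cast at this
      linarith
    linarith
  · omega

end Pool.Agent.V1173.UR
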