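import Pool.Agent.V1173.UR.Core
import Pool.Agent.Y743.NC.Tail
import Pool.Agent.Y743.CL.Fa

/-! # Uniform integrability of the gaps (no hypothesis on the zeros) -/

set_option autoImplicit false

open Filter Topology MeasureTheory Set

namespace Pool.Agent.V1173.UR

open SG (ord NZ)
open Pool.Agent.Y743.LR
open Pool.Agent.Y743.NC (dev dev_nonneg dev_int var_le)
open Pool.Agent.Y743.CL (grow4)

/-- the heights in a long gap -/
def EK (T K : ℝ) : Set ℝ := {t | K ≤ dif (yv T) (NZ t)}

lemma EK_meas (T K : ℝ) : MeasurableSet (EK T K) :=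
  step_set (ν := NZ) SG.NZ_mono (fun n _ => K ≤ dif (yv T) n) 0

lemma between {t : ℝ} (h : 1 ≤ NZ t) : ord (NZ t) ≤ t ∧ t < ord (NZ t + 1) := by
  refine ⟨(SG.ord_le_iff h t).mpr le_rfl, ?_⟩
  by_contra hcon
  push Not at hcon
  have := (SG.ord_le_iff (by omega) t).mp hcon
  omega

lemma NZ_eq {t : ℝ} {n : ℕ} (hn : 1 ≤ n) (h1 : ord n ≤ t) (h2 : t < ord (n + 1)) : NZ t = n := by
  have a1 := (SG.ord_le_iff hn t).mp h1
  have a2 : ¬ (n + 1 ≤ NZ t) := by
    intro hcon
    have := (SG.ord_le_iff (by omega) t).mpr hcon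
    linarith
  omega

/-- the measure of the heights in the long gaps -/
lemma long_meas : ∃ C T0 : ℝ, 1 ≤ C ∧ 10 ≤ T0 ∧ ∀ T : ℝ, T0 ≤ T → 1 ≤ NZ T → ∀ a : ℝ, 0 < a →
    a * Real.log a ≤ Real.log T →
    volume.real (EK T (2 * a) ∩ Icc T (2 * T)) ≤
      2 * (T * (C + Real.log (1 + a))) / a ^ 2 + a * (2 * Real.pi / Real.log T) := by
  obtain ⟨C, T0, hC, hT0, hv⟩ := var_le
  refine ⟨C, T0, hC, hT0, fun T hT hN a ha haL => ?_⟩
  have hpi := Real.pi_pos
  have hT10 : 10 ≤ T := hT0.trans hT
  have hL : 0 < Real.log T := Real.log_pos (by linarith)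
  have hvar := hv T hT a ha haL
  obtain ⟨h, hh⟩ : ∃ h : ℝ, h = 2 * Real.pi / Real.log T := ⟨_, rfl⟩
  have hh0 : 0 < h := by rw [hh]; positivity
  have hah : 2 * Real.pi * a / Real.log T = a * h := by rw [hh]; ring
  obtain ⟨W, hW⟩ : ∃ W : Set ℝ, W = {t | a ^ 2 ≤ dev T a t} := ⟨_, rfl⟩
  have hWm : volume.real (W ∩ Icc T (2 * T)) ≤ T * (C + Real.log (1 + a)) / a ^ 2 := by
    have h1 := mul_meas_ge_le_integral_of_nonneg (μ := volume.restrict (Icc T (2 * T)))
      (f := dev T a) (Filter.Eventually.of_forall fun t => dev_nonneg T a t)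
      (dev_int T a T (2 * T)) (a ^ 2)
    have hWM : MeasurableSet W := by
      rw [hW]
      exact step_set (ν := NZ) SG.NZ_mono (fun n m => a ^ 2 ≤ ((m : ℝ) - n - a) ^ 2) _
    have h2 : (volume.restrict (Icc T (2 * T))).real {t | a ^ 2 ≤ dev T a t} =
        volume.real (W ∩ Icc T (2 * T)) := by
      unfold Measure.real
      rw [← hW, Measure.restrict_apply hWM]
    rw [h2] at h1
    rw [le_div_iff₀ (by positivity)]
    linarith
  have hsub : EK T (2 * a) ∩ Icc T (2 * T) ⊆
      ((W ∩ Icc T (2 * T)) ∪ ((fun s => s - a * h) ⁻¹' (W ∩ Icc T (2 * T)))) ∪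
        Icc T (T + a * h) := by
    rintro t ⟨ht, ht1, ht2⟩
    have ht : 2 * a ≤ dif (yv T) (NZ t) := ht
    have hNt : 1 ≤ NZ t := hN.trans (SG.NZ_mono ht1)
    obtain ⟨b1, b2⟩ := between hNt
    rw [dif_yv] at ht
    have hgap : 2 * a * h ≤ ord (NZ t + 1) - ord (NZ t) := by
      have e : ord (NZ t + 1) - ord (NZ t) =
          (ord (NZ t + 1) - ord (NZ t)) * (Real.log T / (2 * Real.pi)) * h := by
        rw [hh]; field_simp
      rw [e]
      exact mul_le_mul_of_nonneg_right ht hh0.le
    have key : ∀ s : ℝ, ord (NZ t) ≤ s → s + a * h < ord (NZ t + 1) → s ∈ W := by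
      intro s h1 h2
      rw [hW]
      show a ^ 2 ≤ ((NZ (s + 2 * Real.pi * a / Real.log T) : ℝ) - NZ s - a) ^ 2
      have hpos : 0 < a * h := by positivity
      rw [hah, NZ_eq hNt h1 (by linarith), NZ_eq hNt (by linarith) h2]
      apply le_of_eq
      ring
    by_cases hc : t + a * h < ord (NZ t + 1)
    · left; left
      exact ⟨key t b1 hc, ht1, ht2⟩
    · push Not at hc
      by_cases hc2 : t ≤ T + a * h
      · right
        exact ⟨ht1, hc2⟩
      · push Not at hc2
        left; right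
        have hpos : 0 < a * h := by positivity
        refine ⟨key (t - a * h) (by linarith) (by linarith), ?_, ?_⟩
        · show T ≤ t - a * h
          linarith
        · show t - a * h ≤ 2 * T
          linarith
  have hfin : volume (((W ∩ Icc T (2 * T)) ∪ ((fun s => s - a * h) ⁻¹' (W ∩ Icc T (2 * T)))) ∪
        Icc T (T + a * h)) ≠ ⊤ := by
    refine ne_top_of_le_ne_top (b := volume (Icc T (2 * T + a * h))) ?_ (measure_mono ?_)
    · rw [Real.volume_Icc]; exact ENNReal.ofReal_ne_top
    · have hpos : 0 < a * h := by positivity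
      rintro t ((⟨_, h1, h2⟩ | ⟨_, h1, h2⟩) | ⟨h1, h2⟩)
      · exact ⟨h1, by linarith⟩
      · have h1 : T ≤ t - a * h := h1
        have h2 : t - a * h ≤ 2 * T := h2
        exact ⟨by linarith, by linarith⟩
      · exact ⟨h1, by linarith⟩
  have h3 := measureReal_mono hsub hfin
  refine h3.trans ((measureReal_union_le _ _).trans ?_)
  have h4 := measureReal_union_le (μ := volume) (W ∩ Icc T (2 * T))
    ((fun s => s - a * h) ⁻¹' (W ∩ Icc T (2 * T)))
  have h5 : volume.real ((fun s => s - a * h) ⁻¹' (W ∩ Icc T (2 * T))) =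
      volume.real (W ∩ Icc T (2 * T)) := by
    unfold Measure.real
    have e : (fun s : ℝ => s - a * h) = fun s => s + -(a * h) := by
      funext s
      ring
    rw [e, measure_preimage_add_right]
  have h6 : volume.real (Icc T (T + a * h)) = a * (2 * Real.pi / Real.log T) := by
    have hpos : 0 < a * h := by positivity
    rw [Measure.real, Real.volume_Icc, ENNReal.toReal_ofReal (by linarith), ← hh]
    ring
  rw [h5] at h4
  rw [h6]
  have h7 : 2 * (T * (C + Real.log (1 + a))) / a ^ 2 =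
      T * (C + Real.log (1 + a)) / a ^ 2 + T * (C + Real.log (1 + a)) / a ^ 2 := by ring
  linarith

/-- integrals of step functions, lower bound -/
lemma step_ge (F : ℕ → ℝ) (hF : ∀ n, 0 ≤ F n) {A B : ℝ} {p q : ℕ} (hp : 1 ≤ p)
    (hA : A ≤ ord p) (hB : ord (q + 1) ≤ B) :
    ∑ n ∈ Finset.Icc p q, F n * (ord (n + 1) - ord n) ≤ ∫ t in Icc A B, F (NZ t) := by
  classical
  have hint : ∀ n ∈ Finset.Icc p q,
      IntegrableOn ((Ico (ord n) (ord (n + 1))).indicator fun _ : ℝ => F n) (Icc A B) := fun n _ =>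
    (integrableOn_const (by rw [Real.volume_Icc]; exact ENNReal.ofReal_ne_top)).indicator
      measurableSet_Ico
  calc ∑ n ∈ Finset.Icc p q, F n * (ord (n + 1) - ord n) =
      ∑ n ∈ Finset.Icc p q, ∫ t in Icc A B,
        (Ico (ord n) (ord (n + 1))).indicator (fun _ : ℝ => F n) t := by
        refine Finset.sum_congr rfl fun n hn => ?_
        rw [Finset.mem_Icc] at hn
        have hn1 : 1 ≤ n := hp.trans hn.1
        have ho : ord n ≤ ord (n + 1) := SG.ord_mono hn1 (Nat.le_succ n)
        have hpn : ord p ≤ ord n := SG.ord_mono hp hn.1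
        have hnq : ord (n + 1) ≤ ord (q + 1) := SG.ord_mono (by omega) (by omega)
        rw [integral_indicator measurableSet_Ico, Measure.restrict_restrict measurableSet_Ico,
          setIntegral_const, smul_eq_mul, mul_comm]
        have : Ico (ord n) (ord (n + 1)) ∩ Icc A B = Ico (ord n) (ord (n + 1)) := by
          apply inter_eq_left.mpr
          intro t ht
          exact ⟨hA.trans (hpn.trans ht.1), ht.2.le.trans (hnq.trans hB)⟩
        rw [this, Measure.real, Real.volume_Ico, ENNReal.toReal_ofReal (by linarith)]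
    _ = ∫ t in Icc A B, ∑ n ∈ Finset.Icc p q,
        (Ico (ord n) (ord (n + 1))).indicator (fun _ : ℝ => F n) t :=
        (integral_finsetSum _ hint).symm
    _ ≤ _ := by
        refine setIntegral_mono_on (integrable_finsetSum _ hint)
          (step_int SG.NZ_mono (fun n _ => F n) 0 A B) measurableSet_Icc fun t ht => ?_
        by_cases hex : ∃ m ∈ Finset.Icc p q, t ∈ Ico (ord m) (ord (m + 1))
        · obtain ⟨m, hm, hmt⟩ := hex
          have hm1 : 1 ≤ m := hp.trans (Finset.mem_Icc.mp hm).1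
          have hNm : NZ t = m := NZ_eq hm1 hmt.1 hmt.2
          rw [Finset.sum_eq_single m]
          · rw [indicator_of_mem hmt, hNm]
          · intro n hn hnm
            rw [indicator_of_notMem]
            intro hnt
            apply hnm
            have hn1 : 1 ≤ n := hp.trans (Finset.mem_Icc.mp hn).1
            rw [← NZ_eq hn1 hnt.1 hnt.2, hNm]
          · intro h; exact absurd hm h
        · push Not at hex
          rw [Finset.sum_eq_zero]
          · exact hF _
          · intro n hn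
            exact indicator_of_notMem (hex n hn) _

/-- the large gaps -/
noncomputable def GG (T K : ℝ) (n : ℕ) : ℝ := if K ≤ dif (yv T) n then dif (yv T) n else 0

lemma set_int (T K A B : ℝ) :
    ∫ t in Icc A B, (if K ≤ dif (yv T) (NZ t) then (1 : ℝ) else 0) =
      volume.real (EK T K ∩ Icc A B) := by
  have e2 : ∀ t, (if K ≤ dif (yv T) (NZ t) then (1 : ℝ) else 0) =
      (EK T K).indicator (fun _ => (1 : ℝ)) t := by
    intro t
    by_cases h : K ≤ dif (yv T) (NZ t)
    · rw [indicator_of_mem (show t ∈ EK T K from h), if_pos h]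
    · rw [indicator_of_notMem (show t ∉ EK T K from h), if_neg h]
  simp_rw [e2]
  rw [integral_indicator (EK_meas T K), Measure.restrict_restrict (EK_meas T K),
    setIntegral_const, smul_eq_mul, mul_one]

/-- **uniform integrability of the gaps** -/
lemma ui {η : ℝ} (hη : 0 < η) : ∃ K : ℝ, 2 ≤ K ∧ ∀ k : ℕ, ∃ T0 : ℝ, 10 ≤ T0 ∧ ∀ T : ℝ, T0 ≤ T →
    ∑ n ∈ Finset.Icc (NZ T) (NZ (2 * T) + k), GG T K n ≤ η * (T * Real.log T) := by
  classical
  obtain ⟨C, T1, hC, hT1, hlm⟩ := long_meas
  obtain ⟨A0, hA0, hgrow⟩ := grow4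
  obtain ⟨κ, D, C2, hκ, hκ1, hD, hC2, hg⟩ := good_ev
  obtain ⟨T3, hT3, hg0⟩ := hg 0
  have hpi := Real.pi_pos
  have hpi3 := Real.pi_gt_three
  -- the scale
  obtain ⟨a, ha1, ha2⟩ : ∃ a : ℝ, 1 ≤ a ∧ 2 * (C + Real.log (1 + a)) / a ^ 2 ≤ η := by
    have e1 : Tendsto (fun a : ℝ => 2 * (C + Real.log (1 + a)) / a ^ 2) atTop (𝓝 0) := by
      have e2 : Tendsto (fun a : ℝ => 2 * C * (1 / a ^ 2) +
          2 * (Real.log (1 + a) / (1 + a) * ((1 + a) / a ^ 2))) atTop
          (𝓝 (2 * C * 0 + 2 * (0 * 0))) := by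
        have e3 : Tendsto (fun a : ℝ => 1 / a ^ 2) atTop (𝓝 0) := by
          simp only [one_div]
          exact (tendsto_pow_atTop two_ne_zero).inv_tendsto_atTop
        have e4 : Tendsto (fun a : ℝ => Real.log (1 + a) / (1 + a)) atTop (𝓝 0) := by
          have := Real.isLittleO_log_id_atTop.tendsto_div_nhds_zero
          exact this.comp (tendsto_atTop_add_const_left _ 1 tendsto_id)
        have e5 : Tendsto (fun a : ℝ => (1 + a) / a ^ 2) atTop (𝓝 0) := by
          have e6 : Tendsto (fun a : ℝ => 1 / a ^ 2 + a⁻¹) atTop (𝓝 (0 + 0)) :=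
            e3.add tendsto_inv_atTop_zero
          rw [add_zero] at e6
          refine e6.congr' ?_
          filter_upwards [eventually_gt_atTop 0] with a ha
          field_simp
        exact (e3.const_mul _).add ((e4.mul e5).const_mul _)
      simp only [mul_zero, add_zero] at e2
      refine e2.congr' ?_
      filter_upwards [eventually_gt_atTop 0] with a ha
      field_simp
    obtain ⟨a, h1, h2⟩ := ((eventually_ge_atTop 1).and
      (e1.eventually_le_const (by positivity : (0 : ℝ) < η))).exists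
    exact ⟨a, h1, h2⟩
  have ha0 : 0 < a := by linarith
  refine ⟨4 * a, by linarith, fun k => ?_⟩
  have hev : ∀ᶠ T : ℝ in atTop, 2 ≤ Real.log T ∧ a * Real.log a ≤ Real.log T ∧
      a * (2 * Real.pi) ≤ η * T / 8 ∧ (k : ℝ) + 1 ≤ T := by
    filter_upwards [Real.tendsto_log_atTop.eventually_ge_atTop 2,
      Real.tendsto_log_atTop.eventually_ge_atTop (a * Real.log a),
      eventually_ge_atTop (8 * (a * (2 * Real.pi)) / η), eventually_ge_atTop ((k : ℝ) + 1)]
      with T h1 h2 h3 h4
    refine ⟨h1, h2, ?_, h4⟩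
    rw [div_le_iff₀ hη] at h3
    linarith
  obtain ⟨T2, hT2⟩ := hev.exists_forall_of_atTop
  refine ⟨4 * max (max T1 T2) (max T3 A0), ?_, fun T hT => ?_⟩
  · have : 10 ≤ max (max T1 T2) (max T3 A0) := hT1.trans ((le_max_left _ _).trans (le_max_left _ _))
    linarith
  have hm1 : T1 ≤ max (max T1 T2) (max T3 A0) := (le_max_left _ _).trans (le_max_left _ _)
  have hm2 : T2 ≤ max (max T1 T2) (max T3 A0) := (le_max_right _ _).trans (le_max_left _ _)
  have hm3 : T3 ≤ max (max T1 T2) (max T3 A0) := (le_max_left _ _).trans (le_max_right _ _)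
  have hm4 : A0 ≤ max (max T1 T2) (max T3 A0) := (le_max_right _ _).trans (le_max_right _ _)
  have hT40 : 40 ≤ T := by linarith
  have hTpos : 0 < T := by linarith
  obtain ⟨l1, _, _, l4⟩ := hT2 T (by linarith)
  have hL0 : 0 < Real.log T := by linarith
  have hlog2 : Real.log 2 ≤ 1 := by linarith [Real.log_two_lt_d9]
  have hlhalf : Real.log (T / 2) = Real.log T - Real.log 2 :=
    Real.log_div (by linarith) (by norm_num)
  have hldbl : Real.log (2 * T) = Real.log 2 + Real.log T :=
    Real.log_mul (by norm_num) (by linarith)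
  -- monotonicity in the scale
  have hEK : ∀ T' : ℝ, Real.log T / 2 ≤ Real.log T' → ∀ t : ℝ, 1 ≤ NZ t → t ∈ EK T (4 * a) →
      t ∈ EK T' (2 * a) := by
    intro T' hT' t hNt ht
    have ht : 4 * a ≤ dif (yv T) (NZ t) := ht
    show 2 * a ≤ dif (yv T') (NZ t)
    rw [dif_yv] at ht ⊢
    have ho : ord (NZ t) ≤ ord (NZ t + 1) := SG.ord_mono hNt (Nat.le_succ _)
    have h1 : (ord (NZ t + 1) - ord (NZ t)) * (Real.log T / 2 / (2 * Real.pi)) ≤
        (ord (NZ t + 1) - ord (NZ t)) * (Real.log T' / (2 * Real.pi)) := by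
      apply mul_le_mul_of_nonneg_left _ (by linarith)
      exact div_le_div_of_nonneg_right hT' (by positivity)
    have h2 : (ord (NZ t + 1) - ord (NZ t)) * (Real.log T / 2 / (2 * Real.pi)) =
        (ord (NZ t + 1) - ord (NZ t)) * (Real.log T / (2 * Real.pi)) / 2 := by ring
    linarith
  have piece : ∀ T' : ℝ, T / 2 ≤ T' → T' ≤ 2 * T →
      volume.real (EK T (4 * a) ∩ Icc T' (2 * T')) ≤ T' * η + η * T' / 8 := by
    intro T' h1 h2
    have hT'pos : 0 < T' := by linarith
    obtain ⟨m1, m2, m3, _⟩ := hT2 T' (by linarith)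
    have hN' : 1 ≤ NZ T' := (hg0 T' (by linarith)).n1
    have h3 := hlm T' (by linarith) hN' a ha0 m2
    have h4 : EK T (4 * a) ∩ Icc T' (2 * T') ⊆ EK T' (2 * a) ∩ Icc T' (2 * T') := by
      rintro t ⟨ht, ht1, ht2⟩
      refine ⟨hEK T' ?_ t (hN'.trans (SG.NZ_mono ht1)) ht, ht1, ht2⟩
      have : Real.log (T / 2) ≤ Real.log T' := Real.log_le_log (by linarith) h1
      linarith
    have hfin : volume (EK T' (2 * a) ∩ Icc T' (2 * T')) ≠ ⊤ :=
      ne_top_of_le_ne_top (by rw [Real.volume_Icc]; exact ENNReal.ofReal_ne_top)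
        (measure_mono inter_subset_right)
    refine (measureReal_mono h4 hfin).trans (h3.trans ?_)
    have h5 : 2 * (T' * (C + Real.log (1 + a))) / a ^ 2 ≤ T' * η := by
      calc 2 * (T' * (C + Real.log (1 + a))) / a ^ 2 =
          T' * (2 * (C + Real.log (1 + a)) / a ^ 2) := by ring
        _ ≤ _ := mul_le_mul_of_nonneg_left ha2 hT'pos.le
    have h6 : a * (2 * Real.pi / Real.log T') ≤ a * (2 * Real.pi) := by
      apply mul_le_mul_of_nonneg_left _ ha0.le
      apply div_le_self (by positivity)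
      linarith
    linarith
  have p1 := piece (T / 2) le_rfl (by linarith)
  have p2 := piece T (by linarith) (by linarith)
  have p3 := piece (2 * T) (by linarith) le_rfl
  rw [show 2 * (T / 2) = T by ring] at p1
  rw [show 2 * (2 * T) = 4 * T by ring] at p3
  have htot : volume.real (EK T (4 * a) ∩ Icc (T / 2) (4 * T)) ≤ 4 * (η * T) := by
    have hsub : EK T (4 * a) ∩ Icc (T / 2) (4 * T) ⊆
        ((EK T (4 * a) ∩ Icc (T / 2) T) ∪ (EK T (4 * a) ∩ Icc T (2 * T))) ∪
          (EK T (4 * a) ∩ Icc (2 * T) (4 * T)) := by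
      rintro t ⟨ht, ht1, ht2⟩
      rcases le_total t T with h | h
      · left; left; exact ⟨ht, ht1, h⟩
      · rcases le_total t (2 * T) with h' | h'
        · left; right; exact ⟨ht, h, h'⟩
        · right; exact ⟨ht, h', ht2⟩
    have hfin : volume (((EK T (4 * a) ∩ Icc (T / 2) T) ∪ (EK T (4 * a) ∩ Icc T (2 * T))) ∪
          (EK T (4 * a) ∩ Icc (2 * T) (4 * T))) ≠ ⊤ := by
      refine ne_top_of_le_ne_top (b := volume (Icc (T / 2) (4 * T))) ?_ (measure_mono ?_)
      · rw [Real.volume_Icc]; exact ENNReal.ofReal_ne_top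
      · rintro t ((⟨_, h1, h2⟩ | ⟨_, h1, h2⟩) | ⟨_, h1, h2⟩)
        · exact ⟨h1, by linarith⟩
        · exact ⟨by linarith, by linarith⟩
        · exact ⟨by linarith, h2⟩
    refine (measureReal_mono hsub hfin).trans ((measureReal_union_le _ _).trans ?_)
    have h4 := measureReal_union_le (μ := volume) (EK T (4 * a) ∩ Icc (T / 2) T)
      (EK T (4 * a) ∩ Icc T (2 * T))
    have h5 : 0 < η * T := by positivity
    nlinarith
  -- the sum
  have hN1 : 1 ≤ NZ T := (hg0 T (by linarith)).n1
  have hA : T / 2 ≤ ord (NZ T) := by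
    have h1 := hgrow (T / 4) (by linarith)
    rw [show 2 * (T / 4) = T / 2 by ring, show 4 * (T / 4) = T by ring] at h1
    by_contra hcon
    push Not at hcon
    have h2 := (SG.ord_le_iff hN1 _).mp hcon.le
    have h3 : (NZ T : ℝ) ≤ NZ (T / 2) := by exact_mod_cast h2
    linarith
  have hB : ord (NZ (2 * T) + k + 1) ≤ 4 * T := by
    rw [SG.ord_le_iff (by omega)]
    have h1 := hgrow T (by linarith)
    have h2 : ((NZ (2 * T) + k + 1 : ℕ) : ℝ) ≤ NZ (4 * T) := by
      push_cast
      linarith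
    exact_mod_cast h2
  have h1 := step_ge (fun n => if 4 * a ≤ dif (yv T) n then (1 : ℝ) else 0)
    (fun n => by split_ifs <;> norm_num) hN1 hA hB
  rw [set_int] at h1
  have h2 : ∑ n ∈ Finset.Icc (NZ T) (NZ (2 * T) + k), GG T (4 * a) n =
      Real.log T / (2 * Real.pi) * ∑ n ∈ Finset.Icc (NZ T) (NZ (2 * T) + k),
        (if 4 * a ≤ dif (yv T) n then (1 : ℝ) else 0) * (ord (n + 1) - ord n) := by
    rw [Finset.mul_sum]
    refine Finset.sum_congr rfl fun n _ => ?_
    unfold GG
    split_ifs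
    · rw [dif_yv]; ring
    · ring
  rw [h2]
  calc Real.log T / (2 * Real.pi) * ∑ n ∈ Finset.Icc (NZ T) (NZ (2 * T) + k),
        (if 4 * a ≤ dif (yv T) n then (1 : ℝ) else 0) * (ord (n + 1) - ord n) ≤
        Real.log T / (2 * Real.pi) * (4 * (η * T)) := by
        apply mul_le_mul_of_nonneg_left (h1.trans htot) (by positivity)
    _ = 4 / (2 * Real.pi) * (η * (T * Real.log T)) := by ring
    _ ≤ 1 * (η * (T * Real.log T)) := by
        apply mul_le_mul_of_nonneg_right _ (by positivity)
        rw [div_le_one (by positivity)]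
        linarith
    _ = _ := one_mul _

/-- the gaps are tight at almost all heights -/
lemma gap_tightU {T : ℕ → ℝ} (hTt : Tendsto T atTop atTop) (hT10 : ∀ i, 10 ≤ T i) :
    ITight T NZ (fun i => dif (yv (T i))) := by
  classical
  have hpi := Real.pi_pos
  obtain ⟨κ, D, C2, hκ, hκ1, hD, hC2, hg⟩ := good_ev
  intro ε hε
  obtain ⟨K, hK, hui⟩ := ui (η := ε / (4 * Real.pi)) (by positivity)
  refine ⟨K, by linarith, fun k => ?_⟩
  obtain ⟨T0, _, h0⟩ := hui 0
  obtain ⟨T1, _, h1⟩ := hui k
  obtain ⟨T2, _, h2⟩ := hg k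
  filter_upwards [hTt.eventually_ge_atTop T0, hTt.eventually_ge_atTop T1,
    hTt.eventually_ge_atTop T2] with i a0 a1 a2
  have b0 := h0 (T i) a0
  have b1 := h1 (T i) a1
  have g1 := h2 (T i) a2
  have hTi : 0 < T i := by linarith [hT10 i]
  have hL : 0 < Real.log (T i) := by linarith [g1.lgT]
  rw [add_zero] at b0
  set F : ℕ → ℝ := fun n => if K ≤ |dif (yv (T i)) (n + k)| then 1 else 0 with hF
  have hF0 : ∀ n, 0 ≤ F n := fun n => by
    simp only [hF]
    split_ifs <;> norm_num
  have c1 := step_le F hF0 (A := T i) (B := 2 * T i) g1.n1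
  have e1 : ∫ t in Icc (T i) (2 * T i), F (NZ t) =
      dn (T) i {t | K ≤ |dif (yv (T i)) (NZ t + k)|} * T i := by
    set E : Set ℝ := {t | K ≤ |dif (yv (T i)) (NZ t + k)|} with hE
    have hEm : MeasurableSet E :=
      step_set (ν := NZ) SG.NZ_mono (fun n _ => K ≤ |dif (yv (T i)) (n + k)|) 0
    have e2 : ∀ t, F (NZ t) = E.indicator (fun _ => (1 : ℝ)) t := by
      intro t
      simp only [hF, Set.indicator, hE, mem_ofPred_eq]
    simp_rw [e2]
    rw [integral_indicator hEm, Measure.restrict_restrict hEm, setIntegral_const, smul_eq_mul,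
      mul_one]
    unfold dn Measure.real
    field_simp
  rw [e1] at c1
  have c2 : ∀ n ∈ Finset.Icc (NZ (T i)) (NZ (2 * T i)), F n * (ord (n + 1) - ord n) ≤
      2 * Real.pi / Real.log (T i) * (GG (T i) K n + GG (T i) K (n + k)) := by
    intro n hn
    rw [Finset.mem_Icc] at hn
    have hx := (gam_le hκ (by linarith [hT10 i]) g1.lgκ g1.n1 g1.n2 hn.1).2.1
    have hy := (gam_le hκ (by linarith [hT10 i]) g1.lgκ g1.n1 g1.n2
      (hn.1.trans (Nat.le_add_right n k))).2.1
    have e3 : ord (n + 1) - ord n = 2 * Real.pi / Real.log (T i) * dif (yv (T i)) n := by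
      rw [dif_yv]; field_simp
    rw [e3]
    have hGn : 0 ≤ GG (T i) K n := by unfold GG; split_ifs <;> linarith
    have hGk : 0 ≤ GG (T i) K (n + k) := by unfold GG; split_ifs <;> linarith
    have e4 : F n * dif (yv (T i)) n ≤ GG (T i) K n + GG (T i) K (n + k) := by
      simp only [hF]
      rw [abs_of_nonneg hy]
      by_cases h : K ≤ dif (yv (T i)) (n + k)
      · rw [if_pos h, one_mul]
        by_cases h' : K ≤ dif (yv (T i)) n
        · have : GG (T i) K n = dif (yv (T i)) n := by unfold GG; rw [if_pos h']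
          linarith
        · have : GG (T i) K (n + k) = dif (yv (T i)) (n + k) := by unfold GG; rw [if_pos h]
          push Not at h'
          linarith
      · rw [if_neg h, zero_mul]
        linarith
    calc F n * (2 * Real.pi / Real.log (T i) * dif (yv (T i)) n) =
        2 * Real.pi / Real.log (T i) * (F n * dif (yv (T i)) n) := by ring
      _ ≤ _ := by gcongr
  have c3 := c1.trans (Finset.sum_le_sum c2)
  rw [← Finset.mul_sum, Finset.sum_add_distrib] at c3
  have c4 : ∑ n ∈ Finset.Icc (NZ (T i)) (NZ (2 * T i)), GG (T i) K (n + k) ≤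
      ε / (4 * Real.pi) * (T i * Real.log (T i)) := by
    refine le_trans ?_ b1
    have e5 : ∑ n ∈ Finset.Icc (NZ (T i)) (NZ (2 * T i)), GG (T i) K (n + k) =
        ∑ m ∈ (Finset.Icc (NZ (T i)) (NZ (2 * T i))).map (addRightEmbedding k),
          GG (T i) K m := by
      rw [Finset.sum_map]
      rfl
    rw [e5]
    apply Finset.sum_le_sum_of_subset_of_nonneg
    · intro m hm
      rw [Finset.mem_map] at hm
      obtain ⟨n, hn, rfl⟩ := hm
      rw [Finset.mem_Icc] at hn ⊢
      have e6 : addRightEmbedding k n = n + k := rfl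
      rw [e6]
      omega
    · intro m hm _
      rw [Finset.mem_Icc] at hm
      have hx := (gam_le hκ (by linarith [hT10 i]) g1.lgκ g1.n1 g1.n2 hm.1).2.1
      unfold GG
      split_ifs <;> linarith
  have c5 : dn T i {t | K ≤ |dif (yv (T i)) (NZ t + k)|} * T i ≤ ε * T i := by
    refine c3.trans ?_
    calc 2 * Real.pi / Real.log (T i) * (∑ n ∈ Finset.Icc (NZ (T i)) (NZ (2 * T i)), GG (T i) K n +
          ∑ n ∈ Finset.Icc (NZ (T i)) (NZ (2 * T i)), GG (T i) K (n + k)) ≤
        2 * Real.pi / Real.log (T i) * (ε / (4 * Real.pi) * (T i * Real.log (T i)) +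
          ε / (4 * Real.pi) * (T i * Real.log (T i))) := by gcongr
      _ = ε * T i := by field_simp; ring
  exact le_of_mul_le_mul_right c5 hTi

end Pool.Agent.V1173.UR
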