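import Pool.Agent.V1173.UR.Gap
import Pool.Agent.Y743.CL.St

/-! # From indices to heights, and the general contradiction (no hypothesis on the zeros) -/

set_option autoImplicit false

open Filter Topology MeasureTheory Set Polynomial

namespace Pool.Agent.V1173.UR

open SG (ord NZ)
open Pool.Agent.Y743.LR
open Pool.Agent.Y743.CL (Zv stat_clt gs Ph Ph_lip gs_left gs_right)

/-- sets of indices of density zero are null for the heights -/
lemma index_nullU {κ D C : ℝ} (hκ : 0 < κ) {T : ℕ → ℝ} (hTt : Tendsto T atTop atTop)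
    (hT10 : ∀ i, 10 ≤ T i) (hg : ∀ k : ℕ, ∀ᶠ i in atTop, Good κ D C k (T i))
    {N : ℕ → ℕ} (hN : ∀ k : ℕ, ∀ᶠ i in atTop, NZ (2 * T i) + k ≤ N i)
    {C4 : ℝ} (hC4 : 0 < C4) (hNC : ∀ᶠ i in atTop, (N i : ℝ) ≤ C4 * (T i * Real.log (T i)))
    {S : ℕ → Set ℕ} {ε : ℕ → ℝ} (hε : Tendsto ε atTop (𝓝 0))
    (hS : ∀ i, ({n : ℕ | 1 ≤ n ∧ n ≤ N i ∧ n ∈ S i}.ncard : ℝ) ≤ ε i * N i) (k : ℕ) {δ : ℝ}
    (hδ : 0 < δ) : ∀ᶠ i in atTop, dn T i {t | NZ t + k ∈ S i} ≤ δ := by
  classical
  have hpi := Real.pi_pos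
  obtain ⟨K, hK2, hui⟩ := ui (η := δ / (4 * Real.pi)) (by positivity)
  have hK0 : 0 < K := by linarith
  obtain ⟨Tu, _, hTu⟩ := hui 0
  have hev : ∀ᶠ i in atTop, ε i ≤ δ / (4 * Real.pi * K * C4) :=
    hε.eventually_le_const (by positivity)
  filter_upwards [hg 0, hN k, hNC, hev, hTt.eventually_ge_atTop Tu] with i g1 g2 g3 g4 g5
  have hTi : 0 < T i := by linarith [hT10 i]
  have hL : 0 < Real.log (T i) := by linarith [g1.lgT]
  have h4 := hTu (T i) g5
  rw [add_zero] at h4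
  set F : ℕ → ℝ := fun n => if n + k ∈ S i then 1 else 0 with hF
  have hF0 : ∀ n, 0 ≤ F n := fun n => by
    simp only [hF]
    split_ifs <;> norm_num
  have h1 := step_le F hF0 (A := T i) (B := 2 * T i) g1.n1
  have e1 : ∫ t in Icc (T i) (2 * T i), F (NZ t) = dn T i {t | NZ t + k ∈ S i} * T i := by
    set E : Set ℝ := {t | NZ t + k ∈ S i} with hE
    have hEm : MeasurableSet E := step_set (ν := NZ) SG.NZ_mono (fun n _ => n + k ∈ S i) 0
    have e2 : ∀ t, F (NZ t) = E.indicator (fun _ => (1 : ℝ)) t := by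
      intro t
      simp only [hF, Set.indicator, hE, mem_ofPred_eq]
    simp_rw [e2]
    rw [integral_indicator hEm, Measure.restrict_restrict hEm, setIntegral_const, smul_eq_mul,
      mul_one]
    unfold dn Measure.real
    field_simp
  rw [e1] at h1
  have h2 : ∀ n ∈ Finset.Icc (NZ (T i)) (NZ (2 * T i)), F n * (ord (n + 1) - ord n) ≤
      2 * Real.pi / Real.log (T i) * (K * F n + GG (T i) K n) := by
    intro n hn
    rw [Finset.mem_Icc] at hn
    obtain ⟨_, a2, _⟩ := gam_le hκ (by linarith [hT10 i]) g1.lgκ g1.n1 g1.n2 hn.1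
    have e3 : ord (n + 1) - ord n = 2 * Real.pi / Real.log (T i) * dif (yv (T i)) n := by
      rw [dif_yv]; field_simp
    rw [e3]
    have e4 : F n * dif (yv (T i)) n ≤ K * F n + GG (T i) K n := by
      have hF1 : F n ≤ 1 := by
        simp only [hF]
        split_ifs <;> norm_num
      unfold GG
      split_ifs with h
      · have h6 : F n * dif (yv (T i)) n ≤ 1 * dif (yv (T i)) n :=
          mul_le_mul_of_nonneg_right hF1 a2
        have h7 : 0 ≤ K * F n := mul_nonneg hK0.le (hF0 n)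
        linarith
      · push Not at h
        have : F n * dif (yv (T i)) n ≤ F n * K := mul_le_mul_of_nonneg_left h.le (hF0 n)
        linarith
    calc F n * (2 * Real.pi / Real.log (T i) * dif (yv (T i)) n) =
        2 * Real.pi / Real.log (T i) * (F n * dif (yv (T i)) n) := by ring
      _ ≤ _ := by gcongr
  have h3 := h1.trans (Finset.sum_le_sum h2)
  rw [← Finset.mul_sum, Finset.sum_add_distrib, ← Finset.mul_sum] at h3
  have h5 : ∑ n ∈ Finset.Icc (NZ (T i)) (NZ (2 * T i)), F n ≤ ε i * N i := by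
    refine le_trans ?_ (hS i)
    simp only [hF]
    rw [Finset.sum_boole]
    have hfin : {n : ℕ | 1 ≤ n ∧ n ≤ N i ∧ n ∈ S i}.Finite :=
      (Set.finite_Iic (N i)).subset fun n hn => hn.2.1
    have h6 : (((Finset.Icc (NZ (T i)) (NZ (2 * T i))).filter fun n => n + k ∈ S i).map
        (addRightEmbedding k)).card ≤ {n : ℕ | 1 ≤ n ∧ n ≤ N i ∧ n ∈ S i}.ncard := by
      rw [← Set.ncard_coe_finset]
      apply Set.ncard_le_ncard _ hfin
      intro m hm
      rw [Finset.mem_coe, Finset.mem_map] at hm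
      obtain ⟨n, hn, rfl⟩ := hm
      rw [Finset.mem_filter, Finset.mem_Icc] at hn
      have hn1 := g1.n1
      have e5 : addRightEmbedding k n = n + k := rfl
      rw [e5]
      exact ⟨by omega, by omega, hn.2⟩
    rw [Finset.card_map] at h6
    exact_mod_cast h6
  have h6 : dn T i {t | NZ t + k ∈ S i} * T i ≤ δ * T i := by
    refine h3.trans ?_
    have e6 : K * ∑ n ∈ Finset.Icc (NZ (T i)) (NZ (2 * T i)), F n ≤
        δ / (4 * Real.pi) * (T i * Real.log (T i)) := by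
      have e7 : ε i * N i ≤ δ / (4 * Real.pi * K * C4) * (C4 * (T i * Real.log (T i))) := by
        calc ε i * N i ≤ δ / (4 * Real.pi * K * C4) * N i :=
              mul_le_mul_of_nonneg_right g4 (Nat.cast_nonneg _)
          _ ≤ _ := mul_le_mul_of_nonneg_left g3 (by positivity)
      calc K * ∑ n ∈ Finset.Icc (NZ (T i)) (NZ (2 * T i)), F n ≤
          K * (δ / (4 * Real.pi * K * C4) * (C4 * (T i * Real.log (T i)))) :=
            mul_le_mul_of_nonneg_left (h5.trans e7) hK0.le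
        _ = _ := by field_simp
    calc 2 * Real.pi / Real.log (T i) * (K * ∑ n ∈ Finset.Icc (NZ (T i)) (NZ (2 * T i)), F n +
          ∑ n ∈ Finset.Icc (NZ (T i)) (NZ (2 * T i)), GG (T i) K n) ≤
          2 * Real.pi / Real.log (T i) * (δ / (4 * Real.pi) * (T i * Real.log (T i)) +
            δ / (4 * Real.pi) * (T i * Real.log (T i))) := by gcongr
      _ = δ * T i := by field_simp; ring
  exact le_of_mul_le_mul_right h6 hTi

/-- the count is spread out -/
lemma spread_cnt (M : ℝ) : ∃ a : ℝ, 1 ≤ a ∧ ∃ T0 : ℝ, 10 ≤ T0 ∧ ∀ T : ℝ, T0 ≤ T →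
    volume.real ({t | |(NZ (t + 2 * Real.pi * a / Real.log T) : ℝ) - NZ t - a| ≤ M} ∩
      Icc T (2 * T)) ≤ 1 / 4 * T := by
  have hpi := Real.pi_pos
  obtain ⟨X1, hX1, hg1⟩ := gs_left (show (0 : ℝ) < 1 / 64 by norm_num) (-(1 / 16))
  obtain ⟨X2, hX2, hg2⟩ := gs_right (show (0 : ℝ) < 1 / 64 by norm_num) (1 / 16)
  obtain ⟨R1, hR1, h1⟩ := stat_clt 1 le_rfl (-X1) (-(1 / 16)) (1 / 64) hX1 (by norm_num)
  obtain ⟨R2, hR2, h2⟩ := stat_clt 1 le_rfl (1 / 16) X2 (1 / 64) hX2 (by norm_num)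
  obtain ⟨a, ha1, ha2, ha3, ha4⟩ : ∃ a : ℝ, 1 ≤ a ∧ R1 ≤ a ∧ R2 ≤ a ∧
      16 * (Real.pi * (|M| + 1)) < Real.sqrt (Real.log a) := by
    have e1 : Tendsto (fun a : ℝ => Real.sqrt (Real.log a)) atTop atTop :=
      Real.tendsto_sqrt_atTop.comp Real.tendsto_log_atTop
    obtain ⟨a, h⟩ := ((eventually_ge_atTop 1).and ((eventually_ge_atTop R1).and
      ((eventually_ge_atTop R2).and (e1.eventually_gt_atTop
        (16 * (Real.pi * (|M| + 1))))))).exists
    exact ⟨a, h⟩
  obtain ⟨T0, hT0⟩ := (Real.tendsto_log_atTop.eventually_ge_atTop (a * Real.log a)).exists_forall_of_atTop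
  refine ⟨a, ha1, max 10 T0, le_max_left _ _, fun T hT => ?_⟩
  have hT10 : 10 ≤ T := (le_max_left _ _).trans hT
  have hlT := hT0 T ((le_max_right _ _).trans hT)
  have hlT' : a * Real.log a ≤ 1 * Real.log T := by rw [one_mul]; exact hlT
  have b1 := h1 a T ha2 (by linarith) hlT'
  have b2 := h2 a T ha3 (by linarith) hlT'
  obtain ⟨E, hE⟩ : ∃ E : Set ℝ, E = {t | |(NZ (t + 2 * Real.pi * a / Real.log T) : ℝ) - NZ t - a| ≤ M} ∩
      Icc T (2 * T) := ⟨_, rfl⟩
  rw [← hE]
  obtain ⟨A1, hA1⟩ : ∃ A1 : Set ℝ, A1 = {t | t ∈ Icc T (2 * T) ∧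
      ¬ (-X1 < Zv a T t ∧ Zv a T t < -(1 / 16))} := ⟨_, rfl⟩
  obtain ⟨A2, hA2⟩ : ∃ A2 : Set ℝ, A2 = {t | t ∈ Icc T (2 * T) ∧
      ¬ (1 / 16 < Zv a T t ∧ Zv a T t < X2)} := ⟨_, rfl⟩
  rw [← hA1] at b1
  rw [← hA2] at b2
  have hsq : 0 < Real.sqrt (Real.log a) := lt_of_le_of_lt (by positivity) ha4
  have hZm : Measurable (Zv a T) := Pool.Agent.Y743.CL.Zv_meas a T
  have hA1m : MeasurableSet A1 := by
    rw [hA1]
    exact measurableSet_Icc.inter ((measurableSet_lt measurable_const hZm).inter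
      (measurableSet_lt hZm measurable_const)).compl
  have hA2m : MeasurableSet A2 := by
    rw [hA2]
    exact measurableSet_Icc.inter ((measurableSet_lt measurable_const hZm).inter
      (measurableSet_lt hZm measurable_const)).compl
  have hEs : E ⊆ A1 ∩ A2 := by
    rw [hE, hA1, hA2]
    rintro t ⟨ht, htI⟩
    have ht : |(NZ (t + 2 * Real.pi * a / Real.log T) : ℝ) - NZ t - a| ≤ M := ht
    have hZ : |Zv a T t| < 1 / 16 := by
      unfold Zv
      rw [abs_div, abs_of_pos hsq, div_lt_iff₀ hsq, abs_mul, abs_of_pos hpi]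
      have e : |a - ((NZ (t + 2 * Real.pi * a / Real.log T) : ℝ) - NZ t)| ≤ |M| := by
        rw [abs_sub_comm]
        exact ht.trans (le_abs_self M)
      have : Real.pi * |a - ((NZ (t + 2 * Real.pi * a / Real.log T) : ℝ) - NZ t)| ≤
          Real.pi * (|M| + 1) := mul_le_mul_of_nonneg_left (by linarith) hpi.le
      linarith
    obtain ⟨z1, z2⟩ := abs_lt.mp hZ
    exact ⟨⟨htI, fun h => by linarith [h.2]⟩, ⟨htI, fun h => by linarith [h.1]⟩⟩
  have hAI1 : A1 ⊆ Icc T (2 * T) := by rw [hA1]; exact fun t ht => ht.1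
  have hAI2 : A2 ⊆ Icc T (2 * T) := by rw [hA2]; exact fun t ht => ht.1
  have hIfin : volume (Icc T (2 * T)) ≠ ⊤ := by rw [Real.volume_Icc]; exact ENNReal.ofReal_ne_top
  have hfin1 : volume A1 ≠ ⊤ := ne_top_of_le_ne_top hIfin (measure_mono hAI1)
  have hfin2 : volume A2 ≠ ⊤ := ne_top_of_le_ne_top hIfin (measure_mono hAI2)
  have hun : volume.real (A1 ∪ A2) + volume.real (A1 ∩ A2) = volume.real A1 + volume.real A2 :=
    measureReal_union_add_inter hA2m hfin1 hfin2
  have hcov : Icc T (2 * T) ⊆ A1 ∪ A2 := by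
    intro t ht
    rw [hA1, hA2]
    by_cases h : -X1 < Zv a T t ∧ Zv a T t < -(1 / 16)
    · right
      exact ⟨ht, fun h' => by linarith [h.2, h'.1]⟩
    · left
      exact ⟨ht, h⟩
  have hcovm : volume.real (Icc T (2 * T)) ≤ volume.real (A1 ∪ A2) :=
    measureReal_mono hcov (ne_top_of_le_ne_top hIfin (measure_mono (union_subset hAI1 hAI2)))
  have hI : volume.real (Icc T (2 * T)) = T := by
    rw [Measure.real, Real.volume_Icc, ENNReal.toReal_ofReal (by linarith)]
    ring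
  rw [hI] at hcovm
  have hlast := measureReal_mono hEs (ne_top_of_le_ne_top hfin1 (measure_mono inter_subset_left))
  have hph : Ph (1 / 16) ≤ Ph (-(1 / 16)) + (1 / 16 - -(1 / 16)) := Ph_lip (by norm_num)
  have b3 : volume.real A1 ≤ (1 - (Ph (-(1 / 16)) - 1 / 64) + 1 / 64) * T :=
    b1.trans (mul_le_mul_of_nonneg_right (by linarith) (by linarith))
  have b4 : volume.real A2 ≤ (1 - (1 - Ph (1 / 16) - 1 / 64) + 1 / 64) * T :=
    b2.trans (mul_le_mul_of_nonneg_right (by linarith) (by linarith))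
  nlinarith

/-- tightness of the local size at shifted heights -/
lemma tl_of {T : ℕ → ℝ} (hTt : Tendsto T atTop atTop) (hT10 : ∀ i, 10 ≤ T i)
    {f : ℕ → ℕ → ℝ} (hf : ITight T NZ f) {ε : ℝ} (hε : 0 < ε) : ∃ K : ℝ, 0 < K ∧
    ∀ a : ℝ, 0 ≤ a → ∀ᶠ i in atTop, dn T i {t | K ≤ |f i (NZ (t + hh T i a))|} ≤ ε := by
  obtain ⟨K, hK, h⟩ := hf (ε / 2) (by positivity)
  refine ⟨K, hK, fun a ha => ?_⟩
  have hT : ∀ i, 0 < T i := fun i => by linarith [hT10 i]
  have hpi := Real.pi_pos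
  filter_upwards [h 0, hTt.eventually_ge_atTop (2 * Real.pi * a / (ε / 2)),
    (Real.tendsto_log_atTop.comp hTt).eventually_ge_atTop 1] with i h1 h2 h3
  have hTi := hT i
  have hh0 := hh_nonneg hT10 i ha
  have hsm : hh T i a ≤ ε / 2 * T i := by
    unfold hh
    have h3 : 1 ≤ Real.log (T i) := h3
    rw [div_le_iff₀ (by positivity)] at h2
    calc 2 * Real.pi * a / Real.log (T i) ≤ 2 * Real.pi * a := div_le_self (by positivity) h3
      _ ≤ _ := by linarith
  simp only [add_zero] at h1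
  obtain ⟨E, hE⟩ : ∃ E : Set ℝ, E = {t | K ≤ |f i (NZ t)|} := ⟨_, rfl⟩
  have hEm : MeasurableSet E := by
    rw [hE]; exact step_set (ν := NZ) SG.NZ_mono (fun n _ => K ≤ |f i n|) 0
  rw [← hE] at h1
  have hsub : {t | K ≤ |f i (NZ (t + hh T i a))|} ∩ Icc (T i) (2 * T i) ⊆
      ((fun t => t + hh T i a) ⁻¹' (E ∩ Icc (T i) (2 * T i))) ∪
        Icc (2 * T i - hh T i a) (2 * T i) := by
    rintro t ⟨ht, ht1, ht2⟩
    by_cases hc : t ≤ 2 * T i - hh T i a
    · left
      refine ⟨?_, ?_, ?_⟩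
      · rw [hE]; exact ht
      · show T i ≤ t + hh T i a
        linarith
      · show t + hh T i a ≤ 2 * T i
        linarith
    · right
      push Not at hc
      exact ⟨hc.le, ht2⟩
  unfold dn at h1 ⊢
  rw [div_le_iff₀ hTi] at h1 ⊢
  have hfin : volume (((fun t => t + hh T i a) ⁻¹' (E ∩ Icc (T i) (2 * T i))) ∪
        Icc (2 * T i - hh T i a) (2 * T i)) ≠ ⊤ := by
    refine ne_top_of_le_ne_top (b := volume (Icc (T i - hh T i a) (2 * T i))) ?_ (measure_mono ?_)
    · rw [Real.volume_Icc]; exact ENNReal.ofReal_ne_top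
    · rintro t (⟨_, h4, h5⟩ | ⟨h4, h5⟩)
      · have h4 : T i ≤ t + hh T i a := h4
        have h5 : t + hh T i a ≤ 2 * T i := h5
        exact ⟨by linarith, by linarith⟩
      · exact ⟨by linarith, h5⟩
  have h4 := measureReal_mono hsub hfin
  have h5 := measureReal_union_le (μ := volume)
    ((fun t => t + hh T i a) ⁻¹' (E ∩ Icc (T i) (2 * T i))) (Icc (2 * T i - hh T i a) (2 * T i))
  have h6 : volume.real ((fun t => t + hh T i a) ⁻¹' (E ∩ Icc (T i) (2 * T i))) =
      volume.real (E ∩ Icc (T i) (2 * T i)) := by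
    unfold Measure.real
    rw [measure_preimage_add_right]
  have h7 : volume.real (Icc (2 * T i - hh T i a) (2 * T i)) = hh T i a := by
    rw [Measure.real, Real.volume_Icc, ENNReal.toReal_ofReal (by linarith)]
    ring
  rw [h6, h7] at h5
  have h8 : volume.real (E ∩ Icc (T i) (2 * T i)) ≤ ε / 2 * T i := h1
  have h9 : volume.real ({t | K ≤ |f i (NZ (t + hh T i a))|} ∩ Icc (T i) (2 * T i)) ≤ ε * T i := by
    linarith
  exact h9

lemma ITight.abs {T : ℕ → ℝ} {ν : ℝ → ℕ} {f : ℕ → ℕ → ℝ} (hf : ITight T ν f) :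
    ITight T ν (fun i n => |f i n|) := by
  intro ε hε
  obtain ⟨K, hK, h⟩ := hf ε hε
  refine ⟨K, hK, fun k => ?_⟩
  simp only [abs_abs]
  exact h k

/-- the ordinates satisfy the hypotheses -/
theorem dataOrd {T : ℕ → ℝ} (hTt : Tendsto T atTop atTop)
    (hT10 : ∀ i, 10 ≤ T i) (h1 : ∀ i, 1 ≤ NZ (T i)) (V : ℝ[X]) :
    DataU T NZ (fun i => yv (T i)) V where
  hT10 := hT10
  hTt := hTt
  hν := SG.NZ_mono
  sand := by
    intro i t ht _
    have hpi := Real.pi_pos
    have hL : 0 < Real.log (T i) := Real.log_pos (by linarith [hT10 i])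
    have hn : 1 ≤ NZ t := (h1 i).trans (SG.NZ_mono ht)
    unfold yv
    refine ⟨mul_le_mul_of_nonneg_right ((SG.ord_le_iff hn t).mpr le_rfl) (by positivity),
      mul_lt_mul_of_pos_right ?_ (by positivity)⟩
    by_contra hcon
    push Not at hcon
    have := (SG.ord_le_iff (by omega) t).mp hcon
    omega
  tl := by
    intro ε hε
    have hT : ∀ i, 0 < T i := fun i => by linarith [hT10 i]
    have ht := gap_tightU hTt hT10
    have h2 : ITight T NZ (fun i n => |dif (yv (T i)) n| + |act V (dif (yv (T i))) n|) :=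
      (ITight.abs ht).add hT (ITight.abs (ht.act hT V))
    exact tl_of hTt hT10 h2 hε
  var := by
    obtain ⟨C, T0, hC, hT0, hv⟩ := Pool.Agent.TH850.UV.nv2 1 le_rfl
    refine ⟨C, hC, fun a ha => ?_⟩
    filter_upwards [hTt.eventually_ge_atTop T0,
      (Real.tendsto_log_atTop.comp hTt).eventually_ge_atTop (a * Real.log a)] with i h2 h3
    have h3' : a * Real.log a ≤ 1 * Real.log (T i) := by rw [one_mul]; exact h3
    obtain ⟨_, h4⟩ := hv (T i) h2 a (by linarith) h3'
    have hTi : 10 ≤ T i := hT10 i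
    have hh0 := hh_nonneg hT10 i (by linarith : 0 ≤ a)
    have e1 : ∫ t in (T i)..(2 * T i),
        ((Pool.Agent.TH850.UV.cnt t (2 * Real.pi * a / Real.log (T i)) : ℝ) - a) ^ 2 =
        ∫ t in Icc (T i) (2 * T i), ((NZ (t + hh T i a) : ℝ) - NZ t - a) ^ 2 := by
      rw [integral_Icc_eq_integral_Ioc, ← intervalIntegral.integral_of_le (by linarith)]
      refine intervalIntegral.integral_congr fun t ht => ?_
      rw [uIcc_of_le (by linarith)] at ht
      show ((Pool.Agent.TH850.UV.cnt t (hh T i a) : ℝ) - a) ^ 2 = _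
      rw [cnt_NZ (by linarith [ht.1]) hh0]
    rw [e1] at h4
    exact h4
  spread := by
    intro M
    obtain ⟨a, ha, T0, hT0, h⟩ := spread_cnt M
    refine ⟨a, ha, ?_⟩
    filter_upwards [hTt.eventually_ge_atTop T0] with i hi
    have h2 := h (T i) hi
    have hTi : 0 < T i := by linarith [hT10 i]
    unfold dn
    rw [div_le_iff₀ hTi]
    exact h2

end Pool.Agent.V1173.UR
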