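import Pool.Agent.V1173.UR.Disp

/-! # The central limit theorem for the distances to the `r`-th neighbours, over all zeros -/

set_option autoImplicit false

open Filter Topology MeasureTheory Set

namespace Pool.Agent.V1173.UR

open SG (ord NZ)
open Pool.Agent.Y743.CL
open Pool.Agent.Y743.AF (NZ_pred_le ord_ratio)

lemma unit_cnt : ∃ C : ℝ, 0 < C ∧ ∀ t : ℝ, 3 ≤ t → (NZ (t + 1) : ℝ) ≤ NZ t + C * Real.log t := by
  obtain ⟨C, hC, hz⟩ := H370.zcount H370.good_zeta
  refine ⟨C, hC, fun t ht => ?_⟩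
  have h1 := SG.NZ_le_add t (t + 1) (by linarith)
  have h2 : H370.NN riemannZeta t (t + 1) ≤ H370.NN riemannZeta (t - 1) (t + 1) :=
    H370.NN_mono H370.good_zeta (by linarith) (by linarith) le_rfl
  have h3 := hz t ht
  have h4 : (NZ (t + 1) : ℝ) ≤ NZ t + H370.NN riemannZeta (t - 1) (t + 1) := by
    exact_mod_cast h1.trans (Nat.add_le_add_left h2 _)
  linarith

/-- `N(γ_N)` is asymptotically `N` -/
lemma NZ_ord_le {η : ℝ} (hη : 0 < η) : ∀ᶠ N : ℕ in atTop, (NZ (ord N) : ℝ) ≤ (1 + η) * N := by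
  obtain ⟨C, hC, hu⟩ := unit_cnt
  obtain ⟨C2, hC2, hheight⟩ := height_le
  have hlo : ∀ᶠ x : ℝ in atTop, C * C2 ≤ η * x :=
    (tendsto_id.const_mul_atTop hη).eventually_ge_atTop _
  filter_upwards [SG.ord_tendsto.eventually_ge_atTop 10, hheight, eventually_ge_atTop 1,
    SG.ord_tendsto.eventually hlo] with N h1 h2 h3 h4
  have h5 := hu (ord N - 1) (by linarith)
  rw [sub_add_cancel] at h5
  have h6 := NZ_pred_le h3
  have h7 : Real.log (ord N - 1) ≤ Real.log (ord N) := Real.log_le_log (by linarith) (by linarith)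
  have h8 : C * Real.log (ord N) ≤ η * N := by
    have hpos : 0 < ord N := by linarith
    have h9 : C * (ord N * Real.log (ord N)) ≤ C * (C2 * N) := mul_le_mul_of_nonneg_left h2 hC.le
    have h10 : C * C2 * N ≤ η * ord N * N := mul_le_mul_of_nonneg_right h4 (Nat.cast_nonneg _)
    have h11 : (C * Real.log (ord N)) * ord N ≤ (η * N) * ord N := by nlinarith
    exact le_of_mul_le_mul_right h11 hpos
  have h12 : C * Real.log (ord N - 1) ≤ C * Real.log (ord N) := mul_le_mul_of_nonneg_left h7 hC.le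
  linarith

/-- from the dyadic blocks to all indices -/
lemma blk_index (P : ℕ → Prop) [DecidablePred P] {c η : ℝ} (hc : 0 ≤ c) (hη : 0 < η) {T0 : ℝ}
    (hT0 : 10 ≤ T0) (h : ∀ T : ℝ, T0 ≤ T →
      (((Finset.Ioc (NZ T) (NZ (2 * T))).filter P).card : ℝ) ≤ c * ((NZ (2 * T) : ℝ) - NZ T)) :
    ∀ᶠ N : ℕ in atTop, (((Finset.Icc 1 N).filter P).card : ℝ) ≤ (c + η) * N := by
  obtain ⟨J, hJ⟩ : ∃ J : ℕ, (1 / 2 : ℝ) ^ J < min (η / 4) 1 :=
    exists_pow_lt_of_lt_one (lt_min (by positivity) one_pos) (by norm_num)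
  have hJη : (1 / 2 : ℝ) ^ J < η / 4 := lt_of_lt_of_le hJ (min_le_left _ _)
  have hJ1 : (1 / 2 : ℝ) ^ J < 1 := lt_of_lt_of_le hJ (min_le_right _ _)
  filter_upwards [ord_ratio ((1 / 2) ^ J) 0 (η / 4) (by positivity) hJ1 (by positivity),
    SG.ord_tendsto.eventually_ge_atTop (T0 * 2 ^ J), eventually_ge_atTop 1,
    NZ_ord_le (show 0 < η / (4 * (c + 1)) by positivity)] with N h2 h3 h4 h5
  obtain ⟨T, hT⟩ : ∃ T : ℝ, T = ord N := ⟨_, rfl⟩
  rw [← hT] at h2 h3 h5
  have hT0' : 0 < T0 := by linarith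
  have hTpos : 0 < T := lt_of_lt_of_le (by positivity) h3
  set A := (Finset.Icc 1 N).filter P with hA
  have key : ∀ j : ℕ, j ≤ J → ((A.filter (fun n => T / 2 ^ j < ord n)).card : ℝ) ≤
      c * ((NZ T : ℝ) - NZ (T / 2 ^ j)) := by
    intro j
    induction j with
    | zero =>
      intro _
      have : A.filter (fun n => T / 2 ^ 0 < ord n) = ∅ := by
        rw [Finset.filter_eq_empty_iff]
        intro n hn
        rw [hA, Finset.mem_filter, Finset.mem_Icc] at hn
        have h5 : ord n ≤ ord N := SG.ord_mono hn.1.1 hn.1.2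
        rw [pow_zero, div_one, hT, not_lt]
        exact h5
      rw [this]
      simp
    | succ j ih =>
      intro hj
      have ih' := ih (by omega)
      have hTj : T0 ≤ T / 2 ^ (j + 1) := by
        rw [le_div_iff₀ (by positivity)]
        refine le_trans ?_ h3
        apply mul_le_mul_of_nonneg_left _ hT0'.le
        exact pow_le_pow_right₀ (by norm_num) hj
      have hb := h (T / 2 ^ (j + 1)) hTj
      have e1 : 2 * (T / 2 ^ (j + 1)) = T / 2 ^ j := by rw [pow_succ]; field_simp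
      rw [e1] at hb
      have hsub : A.filter (fun n => T / 2 ^ (j + 1) < ord n) ⊆
          (A.filter (fun n => T / 2 ^ j < ord n)) ∪
          ((Finset.Ioc (NZ (T / 2 ^ (j + 1))) (NZ (T / 2 ^ j))).filter P) := by
        intro n hn
        rw [Finset.mem_filter] at hn
        obtain ⟨hnA, hn2⟩ := hn
        have hnA' := hnA
        rw [hA, Finset.mem_filter, Finset.mem_Icc] at hnA'
        by_cases hc : T / 2 ^ j < ord n
        · exact Finset.mem_union_left _ (Finset.mem_filter.mpr ⟨hnA, hc⟩)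
        · push Not at hc
          refine Finset.mem_union_right _ (Finset.mem_filter.mpr ⟨Finset.mem_Ioc.mpr
            ⟨?_, (SG.ord_le_iff hnA'.1.1 _).mp hc⟩, hnA'.2⟩)
          by_contra hcon
          push Not at hcon
          have := (SG.ord_le_iff hnA'.1.1 _).mpr hcon
          linarith
      have h5 := (Finset.card_le_card hsub).trans (Finset.card_union_le _ _)
      have h6 : ((A.filter (fun n => T / 2 ^ (j + 1) < ord n)).card : ℝ) ≤
          (A.filter (fun n => T / 2 ^ j < ord n)).card +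
          ((Finset.Ioc (NZ (T / 2 ^ (j + 1))) (NZ (T / 2 ^ j))).filter P).card := by
        exact_mod_cast h5
      have e2 : c * ((NZ T : ℝ) - NZ (T / 2 ^ (j + 1))) = c * ((NZ T : ℝ) - NZ (T / 2 ^ j)) +
          c * ((NZ (T / 2 ^ j) : ℝ) - NZ (T / 2 ^ (j + 1))) := by ring
      rw [e2]
      linarith
  have hkey := key J le_rfl
  have hsplit : A ⊆ (A.filter (fun n => T / 2 ^ J < ord n)) ∪
      ((Finset.Icc 1 N).filter (fun n => ord n ≤ (1 / 2) ^ J * T + 0)) := by
    intro n hn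
    by_cases hc : T / 2 ^ J < ord n
    · exact Finset.mem_union_left _ (Finset.mem_filter.mpr ⟨hn, hc⟩)
    · rw [hA, Finset.mem_filter] at hn
      refine Finset.mem_union_right _ (Finset.mem_filter.mpr ⟨hn.1, ?_⟩)
      push Not at hc
      have : (1 / 2 : ℝ) ^ J * T = T / 2 ^ J := by rw [one_div, inv_pow]; field_simp
      rw [this, add_zero]
      exact hc
  have h6 := (Finset.card_le_card hsplit).trans (Finset.card_union_le _ _)
  have h7 : (A.card : ℝ) ≤ (A.filter (fun n => T / 2 ^ J < ord n)).card +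
      ((Finset.Icc 1 N).filter (fun n => ord n ≤ (1 / 2) ^ J * T + 0)).card := by exact_mod_cast h6
  have hN0 : (1 : ℝ) ≤ N := by exact_mod_cast h4
  have h8 : c * ((NZ T : ℝ) - NZ (T / 2 ^ J)) ≤ c * N + η / 4 * N := by
    have h9 : (0 : ℝ) ≤ NZ (T / 2 ^ J) := Nat.cast_nonneg _
    have h10 : c * ((NZ T : ℝ) - NZ (T / 2 ^ J)) ≤ c * ((1 + η / (4 * (c + 1))) * N) :=
      mul_le_mul_of_nonneg_left (by linarith) hc
    have h11 : c * (η / (4 * (c + 1))) ≤ η / 4 := by
      rw [← mul_div_assoc, div_le_div_iff₀ (by positivity) (by norm_num)]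
      nlinarith
    have h12 : c * (η / (4 * (c + 1))) * N ≤ η / 4 * N := mul_le_mul_of_nonneg_right h11 (by linarith)
    nlinarith
  have h9 : ((1 / 2 : ℝ) ^ J + η / 4) * N ≤ (η / 4 + η / 4) * N :=
    mul_le_mul_of_nonneg_right (by linarith) (by linarith)
  nlinarith

/-- **the central limit theorem for the distances to the `r`-th neighbours** -/
theorem nb_clt (x : ℝ) {ε : ℝ} (hε : 0 < ε) : ∀ᶠ r : ℕ in atTop, ∀ᶠ N : ℕ in atTop,
    |((({n : ℕ | 1 ≤ n ∧ n ≤ N ∧ Yu (n + r) - Yu n ≤ r + x * lm r}.ncard : ℕ) : ℝ)) - Ph x * N| ≤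
      ε * N := by
  classical
  obtain ⟨δ, hδ⟩ : ∃ δ : ℝ, δ = min (ε / 8) (1 / 4) := ⟨_, rfl⟩
  have hδ0 : 0 < δ := by rw [hδ]; exact lt_min (by positivity) (by norm_num)
  have hδε : δ ≤ ε / 8 := by rw [hδ]; exact min_le_left _ _
  have hδ4 : δ ≤ 1 / 4 := by rw [hδ]; exact min_le_right _ _
  filter_upwards [bU x δ hδ0, bL x δ hδ0] with r hU hL
  obtain ⟨T1, hT1⟩ := ((Real.tendsto_log_atTop.eventually_ge_atTop (r * Real.log r / 2)).and
    ((many_zeros hδ0).and (eventually_ge_atTop 10))).exists_forall_of_atTop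
  have hP0 := Ph_nonneg x
  have hP1 := Ph_le_one x
  -- the ratio
  have hrat : ∀ p : ℝ, 0 ≤ p → p ≤ 1 → ∀ Q B : ℝ, 0 ≤ Q → (1 - δ) * Q ≤ B →
      Q * (p + δ) ≤ (p + ε / 2) * B := by
    intro p hp0 hp1 Q B hQ hB
    have h1 : (p + ε / 2) * ((1 - δ) * Q) ≤ (p + ε / 2) * B :=
      mul_le_mul_of_nonneg_left hB (by linarith)
    refine le_trans ?_ h1
    have h2 : p + δ ≤ (p + ε / 2) * (1 - δ) := by nlinarith
    calc Q * (p + δ) ≤ Q * ((p + ε / 2) * (1 - δ)) := mul_le_mul_of_nonneg_left h2 hQ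
      _ = _ := by ring
  have hpi := Real.pi_pos
  have hblkU : ∀ T : ℝ, max 10 T1 ≤ T →
      (((Finset.Ioc (NZ T) (NZ (2 * T))).filter (fun n => Ev x r n)).card : ℝ) ≤
        (Ph x + ε / 2) * ((NZ (2 * T) : ℝ) - NZ T) := by
    intro T hT
    obtain ⟨t1, t2, t3⟩ := hT1 T ((le_max_right _ _).trans hT)
    have hT0 : 0 < T := by linarith
    have hLT : 0 < Real.log T := Real.log_pos (by linarith)
    refine (hU T (by linarith) (by linarith)).trans ?_
    exact hrat (Ph x) hP0 hP1 _ _ (by positivity) t2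
  have hblkL : ∀ T : ℝ, max 10 T1 ≤ T →
      (((Finset.Ioc (NZ T) (NZ (2 * T))).filter (fun n => ¬ Ev x r n)).card : ℝ) ≤
        (1 - Ph x + ε / 2) * ((NZ (2 * T) : ℝ) - NZ T) := by
    intro T hT
    obtain ⟨t1, t2, t3⟩ := hT1 T ((le_max_right _ _).trans hT)
    have hT0 : 0 < T := by linarith
    have hLT : 0 < Real.log T := Real.log_pos (by linarith)
    refine (hL T (by linarith) (by linarith)).trans ?_
    exact hrat (1 - Ph x) (by linarith) (by linarith) _ _ (by positivity) t2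
  filter_upwards [blk_index (fun n => Ev x r n) (by linarith) (half_pos hε) (le_max_left _ _) hblkU,
    blk_index (fun n => ¬ Ev x r n) (by linarith) (half_pos hε) (le_max_left _ _) hblkL] with N h1 h2
  have e1 : {n : ℕ | 1 ≤ n ∧ n ≤ N ∧ Yu (n + r) - Yu n ≤ r + x * lm r}.ncard =
      ((Finset.Icc 1 N).filter (fun n => Ev x r n)).card := by
    rw [← Set.ncard_coe_finset]
    congr 1
    ext n
    simp only [Set.mem_setOf_eq, Finset.coe_filter, Finset.mem_Icc, and_assoc, Ev_iff]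
  rw [e1]
  have e2 := Finset.card_filter_add_card_filter_not (s := Finset.Icc 1 N) (fun n => Ev x r n)
  rw [Nat.card_Icc, Nat.add_sub_cancel] at e2
  have e3 : (((Finset.Icc 1 N).filter (fun n => Ev x r n)).card : ℝ) +
      ((Finset.Icc 1 N).filter (fun n => ¬ Ev x r n)).card = N := by exact_mod_cast e2
  rw [abs_le]
  constructor <;> linarith

end Pool.Agent.V1173.UR
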