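import Pool.Agent.V1173.UR.Lin
import Pool.Agent.Y743.PR.Main

/-! # Polynomial relations between consecutive ordinates (no hypothesis on the zeros) -/

set_option autoImplicit false

open Filter Topology Set

namespace Pool.Agent.V1173.UR

open SG (ord NZ)
open Pool.Agent.Y743.LR (ord_tendsto ord_step)
open Pool.Agent.Y743.PR

/-- few indices have a long span -/
lemma few_long (k : ℕ) {η : ℝ} (hη : 0 < η) : ∀ᶠ N : ℕ in atTop,
    ({n : ℕ | 1 ≤ n ∧ n ≤ N ∧ 1 < ord (n + k) - ord n}.ncard : ℝ) ≤ η * N := by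
  classical
  have hsmall := big (θ := 1 / 2) (by norm_num) (by norm_num)
  obtain ⟨c, T1, hc, hT1, hlow⟩ := LG.GapAux.NZ_low
  -- the ordinates grow sublinearly
  have hsub : ∀ᶠ N : ℕ in atTop, (k : ℝ) * ord (N + k) ≤ η * N := by
    rcases Nat.eq_zero_or_pos k with hk | hk
    · subst hk
      refine Eventually.of_forall fun N => ?_
      simp only [Nat.cast_zero, zero_mul]
      positivity
    have hk0 : (0 : ℝ) < k := by exact_mod_cast hk
    have ht : Tendsto (fun N : ℕ => η / k * (N : ℝ) / 2) atTop atTop :=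
      (tendsto_natCast_atTop_atTop.const_mul_atTop (by positivity)).atTop_div_const two_pos
    have h1 : ∀ᶠ x : ℝ in atTop, T1 ≤ x ∧ 4 * k / (c * η) ≤ Real.log x := by
      filter_upwards [eventually_ge_atTop T1,
        Real.tendsto_log_atTop.eventually_ge_atTop (4 * k / (c * η))] with x a b
      exact ⟨a, b⟩
    filter_upwards [ht.eventually h1, eventually_ge_atTop k, eventually_ge_atTop 1] with N hN hNk hN1
    obtain ⟨a1, a2⟩ := hN
    have hN0 : (1 : ℝ) ≤ N := by exact_mod_cast hN1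
    have h2 := hlow _ a1
    have e1 : 2 * (η / k * (N : ℝ) / 2) = η / k * N := by ring
    rw [e1] at h2
    have h3 : (N + k : ℕ) ≤ NZ (η / k * N) := by
      have h4 : (2 : ℝ) * N ≤ c * (η / k * N / 2) * Real.log (η / k * N / 2) := by
        have h5 : c * (η / k * N / 2) * (4 * k / (c * η)) ≤
            c * (η / k * N / 2) * Real.log (η / k * N / 2) :=
          mul_le_mul_of_nonneg_left a2 (by positivity)
        have h6 : c * (η / k * N / 2) * (4 * k / (c * η)) = 2 * N := by field_simp; ring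
        linarith
      have h5 : ((N + k : ℕ) : ℝ) ≤ NZ (η / k * N) := by
        push_cast
        have h6 : (k : ℝ) ≤ N := by exact_mod_cast hNk
        linarith
      exact_mod_cast h5
    have h4 := (SG.ord_le_iff (by omega) _).mpr h3
    calc (k : ℝ) * ord (N + k) ≤ k * (η / k * N) := mul_le_mul_of_nonneg_left h4 hk0.le
      _ = η * N := by field_simp
  filter_upwards [hsub, eventually_ge_atTop 1] with N hN hN1
  refine le_trans ?_ hN
  have hset : {n : ℕ | 1 ≤ n ∧ n ≤ N ∧ 1 < ord (n + k) - ord n} =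
      ((Finset.Icc 1 N).filter (fun n => 1 < ord (n + k) - ord n) : Finset ℕ) := by
    ext n
    simp only [Set.mem_setOf_eq, Finset.coe_filter, Finset.mem_Icc, and_assoc]
  rw [hset, Set.ncard_coe_finset]
  have h1 : (((Finset.Icc 1 N).filter (fun n => 1 < ord (n + k) - ord n)).card : ℝ) ≤
      ∑ n ∈ Finset.Icc 1 N, (ord (n + k) - ord n) := by
    rw [Finset.card_filter]
    push_cast
    refine Finset.sum_le_sum fun n hn => ?_
    rw [Finset.mem_Icc] at hn
    have := SG.ord_mono hn.1 (Nat.le_add_right n k)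
    split_ifs <;> linarith
  refine h1.trans ?_
  have h2 : ∀ j : ℕ, ∑ n ∈ Finset.Icc 1 N, (ord (n + j) - ord n) ≤ j * ord (N + j) := by
    intro j
    induction j with
    | zero => simp
    | succ j ih =>
      have e1 : ∑ n ∈ Finset.Icc 1 N, (ord (n + (j + 1)) - ord n) =
          ∑ n ∈ Finset.Icc 1 N, (ord (n + j) - ord n) +
          ∑ n ∈ Finset.Icc 1 N, (ord (n + 1 + j) - ord (n + j)) := by
        rw [← Finset.sum_add_distrib]
        refine Finset.sum_congr rfl fun n _ => ?_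
        rw [show n + 1 + j = n + (j + 1) by ring]
        ring
      have e2 : ∑ n ∈ Finset.Icc 1 N, (ord (n + 1 + j) - ord (n + j)) =
          ord (N + 1 + j) - ord (1 + j) := by
        have : ∀ M : ℕ, ∑ n ∈ Finset.Icc 1 M, (ord (n + 1 + j) - ord (n + j)) =
            ord (M + 1 + j) - ord (1 + j) := by
          intro M
          induction M with
          | zero => simp
          | succ M ih =>
            rw [Finset.sum_Icc_succ_top (by omega), ih]
            ring
        exact this N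
      rw [e1, e2]
      have e3 : ord (N + j) ≤ ord (N + (j + 1)) := SG.ord_mono (by omega) (by omega)
      have e4 : 0 ≤ ord (1 + j) := (SG.ord_pos (by omega)).le
      have e5 : N + 1 + j = N + (j + 1) := by ring
      rw [e5]
      have e6 : (j : ℝ) * ord (N + j) ≤ j * ord (N + (j + 1)) :=
        mul_le_mul_of_nonneg_left e3 (Nat.cast_nonneg _)
      push_cast
      linarith
  exact h2 k

lemma ok_evU (k m : ℕ) (hm : 1 ≤ m) {θ ε : ℝ} (hθ0 : 0 ≤ θ) (hθ : θ < 1) (hε : 0 < ε) {C : ℝ}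
    (hC : 0 < C) : ∀ᶠ n : ℕ in atTop, ord (n + k) - ord n ≤ C * (1 + Real.log n) →
      Ok k m θ ε C n := by
  have hm0 : (1 : ℝ) ≤ m := by exact_mod_cast hm
  set θ1 : ℝ := (θ + 1) / 2 with hθ1
  set A : ℝ := nmon k m * (3 * m ^ 2) * (2 / ε) with hA
  set B : ℝ := ε / (2 * (m * (k + 1))) with hB
  have hA0 : 0 ≤ A := by positivity
  have hB0 : 0 < B := by positivity
  have ht : Tendsto (fun n : ℕ => (n : ℝ)) atTop atTop := tendsto_natCast_atTop_atTop
  -- growth comparisons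
  have h1 : ∀ᶠ x : ℝ in atTop, A * (1 + C * (1 + Real.log x)) ^ 2 * x ^ θ ≤ B * x ^ θ1 := by
    have h2 := (isLittleO_log_rpow_rpow_atTop 2 (by rw [hθ1]; linarith : 0 < θ1 - θ)).bound
      (c := B / ((A + 1) * (1 + 2 * C) ^ 2)) (by positivity)
    filter_upwards [h2, eventually_gt_atTop 3] with x hx hx3
    have hx0 : 0 < x := by linarith
    have hl : 1 ≤ Real.log x := by
      rw [Real.le_log_iff_exp_le hx0]
      linarith [Real.exp_one_lt_d9]
    rw [Real.norm_of_nonneg (by positivity), Real.norm_of_nonneg (by positivity)] at hx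
    have e1 : Real.log x ^ (2 : ℝ) = Real.log x ^ 2 := by
      rw [← Real.rpow_natCast]
      norm_num
    rw [e1] at hx
    have e2 : (1 + C * (1 + Real.log x)) ^ 2 ≤ ((1 + 2 * C) * Real.log x) ^ 2 := by
      apply pow_le_pow_left₀ (by positivity)
      nlinarith
    have e3 : x ^ θ1 = x ^ (θ1 - θ) * x ^ θ := by
      rw [← Real.rpow_add hx0]
      norm_num
    calc A * (1 + C * (1 + Real.log x)) ^ 2 * x ^ θ ≤
        (A + 1) * ((1 + 2 * C) * Real.log x) ^ 2 * x ^ θ := by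
          apply mul_le_mul_of_nonneg_right _ (by positivity)
          exact mul_le_mul (by linarith) e2 (by positivity) (by positivity)
      _ = ((A + 1) * (1 + 2 * C) ^ 2) * (Real.log x ^ 2) * x ^ θ := by ring
      _ ≤ ((A + 1) * (1 + 2 * C) ^ 2) *
          (B / ((A + 1) * (1 + 2 * C) ^ 2) * x ^ (θ1 - θ)) * x ^ θ := by gcongr
      _ = B * x ^ θ1 := by
          rw [e3]
          field_simp
  have h3 : ∀ᶠ x : ℝ in atTop, m * (C * (1 + Real.log x)) ≤ x ^ (1 / 2 : ℝ) := by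
    have h2 := (isLittleO_log_rpow_rpow_atTop 1 (by norm_num : (0 : ℝ) < 1 / 2)).bound
      (c := 1 / (2 * m * C)) (by positivity)
    filter_upwards [h2, eventually_gt_atTop 3] with x hx hx3
    have hx0 : 0 < x := by linarith
    have hl : 1 ≤ Real.log x := by
      rw [Real.le_log_iff_exp_le hx0]
      linarith [Real.exp_one_lt_d9]
    rw [Real.rpow_one, Real.norm_of_nonneg (by positivity),
      Real.norm_of_nonneg (by positivity)] at hx
    calc m * (C * (1 + Real.log x)) ≤ m * (C * (2 * Real.log x)) := by gcongr; linarith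
      _ = (2 * m * C) * Real.log x := by ring
      _ ≤ (2 * m * C) * (1 / (2 * m * C) * x ^ (1 / 2 : ℝ)) := by gcongr
      _ = _ := by field_simp
  filter_upwards [ht.eventually h1, ht.eventually h3, eventually_ge_atTop 1,
    ord_tendsto.eventually_ge_atTop 3, big (θ := θ1) (by rw [hθ1]; linarith) (by rw [hθ1]; linarith),
    big (θ := 1 / 2) (by norm_num) (by norm_num)] with n b1 b2 b3 b4 b5 b6 hsp
  have hl : 1 ≤ Real.log (ord n) := by
    rw [Real.le_log_iff_exp_le (by linarith)]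
    linarith [Real.exp_one_lt_d9]
  refine ⟨b3, b4, hsp, ?_, ?_⟩
  · refine b2.trans (le_trans ?_ b6)
    have : 0 ≤ (n : ℝ) ^ (1 / 2 : ℝ) := by positivity
    nlinarith
  · calc nmon k m * (3 * m ^ 2 * (1 + C * (1 + Real.log n)) ^ 2) * (2 / ε * (n : ℝ) ^ θ) *
          Real.log (ord n) =
        A * (1 + C * (1 + Real.log n)) ^ 2 * (n : ℝ) ^ θ * Real.log (ord n) := by
          rw [hA]; ring
      _ ≤ B * (n : ℝ) ^ θ1 * Real.log (ord n) := by gcongr
      _ = B * ((n : ℝ) ^ θ1 * Real.log (ord n)) := by ring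
      _ ≤ B * ord n := mul_le_mul_of_nonneg_left b5 hB0.le

/-- **polynomial relations** -/
theorem polyU (k : ℕ) : ∃ ε : ℝ, 0 < ε ∧ ∀ m : ℕ, 1 ≤ m → ∀ θ : ℝ,
    θ < 1 → ∀ᶠ N : ℕ in atTop, ∀ P : MvPolynomial (Fin k) ℝ, P.totalDegree ≤ m → ∀ i : Fin k,
      grad m P i ≠ 0 → (∀ s, |MvPolynomial.coeff s P| ≤ |grad m P i| * (N : ℝ) ^ θ) →
      ε * N ≤ ({n : ℕ | 1 ≤ n ∧ n ≤ N ∧ 3 ≤ ord n ∧
        ε / m * |grad m P i| * ord n ^ (m - 1) / Real.log (ord n) ≤
          |MvPolynomial.eval (fun j : Fin k => ord (n + j)) P|}.ncard : ℝ) := by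
  obtain ⟨ε0, hε0, h0⟩ := ordinatesU k
  set ε1 : ℝ := min ε0 1 with hε1
  have hε1p : 0 < ε1 := lt_min hε0 one_pos
  have hε11 : ε1 ≤ 1 := min_le_right _ _
  have hε10 : ε1 ≤ ε0 := min_le_left _ _
  have hk0 : (0 : ℝ) ≤ k := Nat.cast_nonneg _
  refine ⟨ε1 / (2 * (k + 1)) / 2, by positivity, fun m hm θ hθ => ?_⟩
  set θ' : ℝ := max θ 0 with hθ'
  have hθ'0 : 0 ≤ θ' := le_max_right _ _
  have hθ'1 : θ' < 1 := max_lt hθ one_pos
  have hC : (0 : ℝ) < 1 := one_pos
  have hok := ok_evU k m hm hθ'0 hθ'1 hε1p hC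
  obtain ⟨n0, hn0⟩ := hok.exists_forall_of_atTop
  have ht : Tendsto (fun n : ℕ => (n : ℝ)) atTop atTop := tendsto_natCast_atTop_atTop
  filter_upwards [h0, eventually_ge_atTop 1, ht.eventually_ge_atTop (2 * n0 / ε1),
    few_long k (show (0 : ℝ) < ε1 / 4 by positivity)] with N hN hN1 hN2 hN3
  intro P hP i hi hco
  have hm1 : (1 : ℝ) ≤ m := by exact_mod_cast hm
  set A : ℝ := |grad m P i| with hA
  have hA0 : 0 < A := abs_pos.mpr hi
  have hN0 : (1 : ℝ) ≤ N := by exact_mod_cast hN1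
  have hco' : ∀ s, |MvPolynomial.coeff s P| ≤ A * (N : ℝ) ^ θ' := fun s => by
    refine (hco s).trans (mul_le_mul_of_nonneg_left ?_ hA0.le)
    exact Real.rpow_le_rpow_of_exponent_le hN0 (le_max_left _ _)
  set K : ℝ := m * (k + 1) with hK
  have hK0 : 0 < K := by positivity
  obtain ⟨j0, hj0⟩ := cf_low hm P i hi
  have h1 := hN (fun j => K / A * cf m P j) ⟨j0, by
    rw [abs_mul, abs_of_pos (by positivity : 0 < K / A), div_mul_eq_mul_div, le_div_iff₀ hA0,
      one_mul]
    exact hj0⟩ (-(K / A * lead (m - 1) P))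
  set S : Set ℕ := {n : ℕ | 1 ≤ n ∧ n ≤ N ∧ ε0 / Real.log (ord n) ≤
    |∑ j : Fin k, K / A * cf m P j * ord (n + j) - -(K / A * lead (m - 1) P)|} with hS
  set S' : Set ℕ := {n : ℕ | 1 ≤ n ∧ n ≤ N ∧ 3 ≤ ord n ∧
        ε1 / (2 * (k + 1)) / m * A * ord n ^ (m - 1) / Real.log (ord n) ≤
          |MvPolynomial.eval (fun j : Fin k => ord (n + j)) P|} with hS'
  have hfin' : S'.Finite := (Set.finite_Icc 1 N).subset fun m hm => ⟨hm.1, hm.2.1⟩
  set B' : Set ℕ := {n : ℕ | 1 ≤ n ∧ n ≤ N ∧ 1 < ord (n + k) - ord n} with hB'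
  have hfinB : B'.Finite := (Set.finite_Icc 1 N).subset fun m hm => ⟨hm.1, hm.2.1⟩
  have hsub : S ⊆ (S' ∪ B') ∪ Set.Icc 1 ⌊ε1 / 2 * N⌋₊ := by
    intro n hn
    obtain ⟨a1, a2, a3⟩ := hn
    by_cases hcase : (n : ℝ) ≤ ε1 / 2 * N
    · right
      exact ⟨a1, Nat.le_floor hcase⟩
    left
    by_cases hlong : 1 < ord (n + k) - ord n
    · right
      exact ⟨a1, a2, hlong⟩
    left
    push Not at hcase
    have hnn : n0 ≤ n := by
      have : (n0 : ℝ) ≤ ε1 / 2 * N := by
        rw [div_le_iff₀ hε1p] at hN2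
        linarith
      exact_mod_cast this.trans hcase.le
    have hokn := hn0 n hnn (by
      push Not at hlong
      have hln : 0 ≤ Real.log n := Real.log_nonneg (by exact_mod_cast a1)
      linarith)
    have hx3 := hokn.x3
    have hl : 0 < Real.log (ord n) := Real.log_pos (by linarith)
    refine ⟨a1, a2, hx3, ?_⟩
    refine point hm hε1p hC hokn hθ'0 hθ'1 hcase.le hε11 hP i hA0 hco' ?_
    have e1 : ∑ j : Fin k, K / A * cf m P j * ord (n + j) - -(K / A * lead (m - 1) P) =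
        K / A * (∑ j : Fin k, cf m P j * ord (n + j) + lead (m - 1) P) := by
      rw [sub_neg_eq_add, mul_add, Finset.mul_sum]
      congr 1
      refine Finset.sum_congr rfl fun j _ => ?_
      ring
    rw [e1, abs_mul, abs_of_pos (by positivity : 0 < K / A)] at a3
    have e2 : ε1 * A / (K * Real.log (ord n)) = A / K * (ε1 / Real.log (ord n)) := by
      field_simp
    rw [← hK, e2]
    calc A / K * (ε1 / Real.log (ord n)) ≤ A / K * (ε0 / Real.log (ord n)) := by gcongr
      _ ≤ A / K * (K / A * |∑ j : Fin k, cf m P j * ord (n + j) + lead (m - 1) P|) :=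
          mul_le_mul_of_nonneg_left a3 (by positivity)
      _ = _ := by field_simp
  have hcard : (S.ncard : ℝ) ≤ S'.ncard + ε1 / 4 * N + ε1 / 2 * N := by
    have h2 : S.ncard ≤ S'.ncard + B'.ncard + (Set.Icc 1 ⌊ε1 / 2 * N⌋₊ : Set ℕ).ncard :=
      (Set.ncard_le_ncard hsub ((hfin'.union hfinB).union (Set.finite_Icc _ _))).trans
        ((Set.ncard_union_le _ _).trans (Nat.add_le_add_right (Set.ncard_union_le _ _) _))
    have h3 : (Set.Icc 1 ⌊ε1 / 2 * N⌋₊ : Set ℕ).ncard = ⌊ε1 / 2 * N⌋₊ := by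
      rw [← Finset.coe_Icc, Set.ncard_coe_finset, Nat.card_Icc, Nat.add_sub_cancel]
    rw [h3] at h2
    have h4 : (⌊ε1 / 2 * (N : ℝ)⌋₊ : ℝ) ≤ ε1 / 2 * N := Nat.floor_le (by positivity)
    have h5 : (S.ncard : ℝ) ≤ S'.ncard + B'.ncard + (⌊ε1 / 2 * (N : ℝ)⌋₊ : ℝ) := by
      exact_mod_cast h2
    linarith [hN3]
  have hB'c : (B'.ncard : ℝ) ≤ ε1 / 4 * N := hN3
  have h2 : ε1 / (2 * (k + 1)) ≤ ε1 / 2 := by
    apply div_le_div_of_nonneg_left hε1p.le two_pos
    linarith
  have h3 : ε1 / (2 * (k + 1)) * N ≤ ε1 / 2 * N := mul_le_mul_of_nonneg_right h2 (by linarith)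
  have h4 : ε1 * N ≤ ε0 * N := mul_le_mul_of_nonneg_right hε10 (by linarith)
  have hfin2 : {n : ℕ | 1 ≤ n ∧ n ≤ N ∧ 3 ≤ ord n ∧
        ε1 / (2 * (k + 1)) / 2 / m * A * ord n ^ (m - 1) / Real.log (ord n) ≤
          |MvPolynomial.eval (fun j : Fin k => ord (n + j)) P|}.Finite :=
    (Set.finite_Icc 1 N).subset fun m hm => ⟨hm.1, hm.2.1⟩
  have h5 : S'.ncard ≤ {n : ℕ | 1 ≤ n ∧ n ≤ N ∧ 3 ≤ ord n ∧
        ε1 / (2 * (k + 1)) / 2 / m * A * ord n ^ (m - 1) / Real.log (ord n) ≤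
          |MvPolynomial.eval (fun j : Fin k => ord (n + j)) P|}.ncard := by
    refine Set.ncard_le_ncard (fun n hn => ?_) hfin2
    obtain ⟨a1, a2, a3, a4⟩ := hn
    refine ⟨a1, a2, a3, le_trans ?_ a4⟩
    have hl : 0 < Real.log (ord n) := Real.log_pos (by linarith)
    apply div_le_div_of_nonneg_right _ hl.le
    have h6 : 0 ≤ ord n ^ (m - 1) := pow_nonneg (by linarith) _
    apply mul_le_mul_of_nonneg_right _ h6
    apply mul_le_mul_of_nonneg_right _ hA0.le
    apply div_le_div_of_nonneg_right _ (by linarith)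
    have h7 : 0 ≤ ε1 / (2 * (k + 1)) := by positivity
    linarith
  have h6 : (S'.ncard : ℝ) ≤ ({n : ℕ | 1 ≤ n ∧ n ≤ N ∧ 3 ≤ ord n ∧
        ε1 / (2 * (k + 1)) / 2 / m * A * ord n ^ (m - 1) / Real.log (ord n) ≤
          |MvPolynomial.eval (fun j : Fin k => ord (n + j)) P|}.ncard : ℝ) := by exact_mod_cast h5
  refine le_trans ?_ h6
  have h7 : ε1 / (2 * (k + 1)) / 2 * N = ε1 / (2 * (k + 1)) * N / 2 := by ring
  rw [h7]
  linarith

end Pool.Agent.V1173.UR
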